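import Pool.Agent.Lib.MP_fd8555_co.Four

/-!
The Fourier bound for the family of cut spaces.
-/

set_option autoImplicit false

namespace Pool.Agent.Lib.MP_fd8555_co

open Finset

variable {n : ℕ}

/-- the small sides of cuts. -/
def sm (n : ℕ) : Finset (Finset (Fin n)) := univ.filter (fun A => A.card ≤ n / 2)

theorem mem_bip_cut {x : Ed n → ZMod 2} (hx : x ∈ bip n) : ∃ A ∈ sm n, x ∈ sup (cut A) := by
  simp only [bip, mem_erase, mem_biUnion, mem_univ, true_and] at hx
  obtain ⟨_, A, hA⟩ := hx
  by_cases h : A.card ≤ n / 2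
  · exact ⟨A, by simp [sm, h], hA⟩
  · have h2 := card_add_card_compl A
    rw [Fintype.card_fin] at h2
    refine ⟨Aᶜ, mem_filter.2 ⟨mem_univ _, by omega⟩, ?_⟩
    have : cut Aᶜ = cut A := by
      ext e
      simp only [cut, mem_filter, mem_compl]
      tauto
    rwa [this]

theorem total_le : ∑ A ∈ sm n, 2 ^ (cut A).card ≤ 2 * n.choose (n / 2) * 2 ^ mx n := by
  rw [← sum_fiberwise_of_maps_to (s := sm n) (t := range (n / 2 + 1)) (g := card)
    (fun A hA => mem_range.2 (Nat.lt_succ_of_le (mem_filter.1 hA).2))]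
  have h2 := geo (n / 2) (mx n) (fun a => a * (n - a)) (fun a ha => half_bound ha)
  rw [mul_comm 2, mul_assoc]
  refine le_trans ?_ (Nat.mul_le_mul_left _ h2)
  rw [mul_sum]
  refine sum_le_sum fun a _ => (sum_le_card_nsmul _ _ (2 ^ (a * (n - a))) fun A hA => ?_).trans ?_
  · exact Nat.pow_le_pow_right two_pos ((mem_filter.1 hA).2 ▸ card_cut A)
  · rw [smul_eq_mul]
    refine Nat.mul_le_mul_right _ (le_trans (card_le_card (t := powersetCard a univ) ?_) ?_)
    · intro A hA
      exact mem_powersetCard.2 ⟨subset_univ _, (mem_filter.1 hA).2⟩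
    · rw [card_powersetCard, card_univ, Fintype.card_fin]
      exact Nat.choose_le_middle a n

theorem bet_le_total (H : Ed n → ZMod 2) :
    bet (sm n) cut H ≤ 2 * n.choose (n / 2) * 2 ^ mx n := by
  have h : ((∑ A ∈ sm n, 2 ^ (cut A).card : ℕ) : ℝ) ≤ 2 * n.choose (n / 2) * 2 ^ mx n := by
    exact_mod_cast total_le
  refine le_trans ?_ h
  push_cast
  exact sum_le_sum fun A _ => by split_ifs <;> simp

theorem bet_nonneg (H : Ed n → ZMod 2) : 0 ≤ bet (sm n) cut H :=
  sum_nonneg fun A _ => by split_ifs <;> positivity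

/-- vertices with a smaller neighbour. -/
def low (H : Ed n → ZMod 2) : Finset (Fin n) :=
  univ.filter (fun j => ∃ e : Ed n, e.1.2 = j ∧ H e ≠ 0)

theorem card_compat (H : Ed n → ZMod 2) :
    (univ.filter (fun A => H ∈ sup (cut A)ᶜ)).card ≤ 2 ^ (n - (low H).card) := by
  have h0 : n - (low H).card = (low H)ᶜ.card := by rw [card_compl, Fintype.card_fin]
  rw [h0, ← card_powerset]
  refine card_le_card_of_injOn (fun A => A \ low H) (fun A _ => ?_) (fun A hA B hB h => ?_)
  · simp only [coe_powerset, Set.mem_preimage, Set.mem_powerset_iff, coe_subset]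
    intro x hx
    exact mem_compl.2 (mem_sdiff.1 hx).2
  · simp only [coe_filter, mem_univ, true_and, Set.mem_ofPred_eq, mem_sup, mem_compl,
      not_not] at hA hB
    have key : ∀ k : ℕ, ∀ j : Fin n, j.1 = k → (j ∈ A ↔ j ∈ B) := by
      intro k
      induction k using Nat.strong_induction_on with
      | _ k ih =>
        intro j hj
        by_cases hl : j ∈ low H
        · obtain ⟨e, he, hH⟩ := (mem_filter.1 hl).2
          have h1 : e.1.1 ∈ A ↔ e.1.2 ∈ A := by
            by_contra hc
            exact hH (hA e (mem_filter.2 ⟨mem_univ _, hc⟩))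
          have h2 : e.1.1 ∈ B ↔ e.1.2 ∈ B := by
            by_contra hc
            exact hH (hB e (mem_filter.2 ⟨mem_univ _, hc⟩))
          have h3 := ih e.1.1.1 (by rw [← hj, ← he]; exact e.2) e.1.1 rfl
          rw [← he, ← h1, ← h2, h3]
        · have h1 : j ∈ A \ low H ↔ j ∈ B \ low H := by
            have : A \ low H = B \ low H := h
            rw [this]
          simpa [hl] using h1
    ext j
    exact key _ j rfl

theorem bet_le_low (H : Ed n → ZMod 2) :
    bet (sm n) cut H ≤ 2 ^ (n - (low H).card) * 2 ^ mx n := by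
  calc bet (sm n) cut H ≤ ∑ A ∈ univ.filter (fun A => H ∈ sup (cut A)ᶜ), (2 : ℝ) ^ mx n := by
        rw [bet, sum_filter]
        refine le_trans (sum_le_sum fun A _ => ?_)
          (sum_le_sum_of_subset_of_nonneg (subset_univ (sm n)) fun _ _ _ => by
            split_ifs <;> positivity)
        split_ifs
        · exact pow_le_pow_right₀ one_le_two (cut_le A)
        · exact le_rfl
    _ ≤ _ := by
        rw [sum_const, nsmul_eq_mul]
        gcongr
        exact_mod_cast card_compat H

theorem card_low (ρ : ℕ) :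
    (univ.filter (fun H : Ed n → ZMod 2 => (low H).card ≤ ρ)).card ≤ 2 ^ n * 2 ^ (ρ * n) := by
  have h : univ.filter (fun H : Ed n → ZMod 2 => (low H).card ≤ ρ) ⊆
      (univ.filter (fun Z : Finset (Fin n) => Z.card ≤ ρ)).biUnion
        (fun Z => sup (univ.filter (fun e : Ed n => e.1.2 ∈ Z))) := by
    intro H hH
    refine mem_biUnion.2 ⟨low H, by simpa using hH, mem_sup.2 fun e he => ?_⟩
    by_contra hc
    exact he (mem_filter.2 ⟨mem_univ _, mem_filter.2 ⟨mem_univ _, e, rfl, hc⟩⟩)
  refine (card_le_card h).trans ((card_biUnion_le_card_mul _ _ (2 ^ (ρ * n)) fun Z hZ => ?_).trans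
    (Nat.mul_le_mul_right _ ((card_filter_le _ _).trans (by simp))))
  refine (card_sup _).trans (Nat.pow_le_pow_right two_pos ?_)
  refine le_trans (card_le_card_of_injOn (t := Z ×ˢ (univ : Finset (Fin n)))
    (fun e => e.1.swap) (fun e he => ?_) (fun e _ f _ h => ?_)) ?_
  · simpa using he
  · exact Subtype.ext (Prod.swap_injective h)
  · rw [card_product, card_univ, Fintype.card_fin]
    exact Nat.mul_le_mul_right _ (mem_filter.1 hZ).2

theorem sum_triples (hn : 25 ≤ n) (A : Finset (Fin n)) :
    ∑ q : Finset (Fin n) × Finset (Fin n), (prs (cut A) (cut q.1) (cut q.2)).card ≤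
      (100 * n ^ 8 + 1) * 4 ^ mx n := by
  have e4 : 4 ^ mx n = 2 ^ mx n * 2 ^ mx n := by rw [← mul_pow, show 2 * 2 = 4 from rfl]
  rw [← sum_filter_add_sum_filter_not univ (fun q => q ∈ near A ×ˢ near A), add_mul, one_mul]
  refine Nat.add_le_add ?_ ?_
  · refine (sum_le_card_nsmul _ _ (4 ^ mx n) (fun q _ => (prs_le _ _ _).trans ?_)).trans ?_
    · rw [e4]
      exact Nat.mul_le_mul (Nat.pow_le_pow_right two_pos
        ((card_le_card inter_subset_left).trans (cut_le _))) (Nat.pow_le_pow_right two_pos (cut_le _))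
    · rw [filter_mem_eq_inter, univ_inter, card_product, smul_eq_mul]
      have := card_near (by omega) A
      exact Nat.mul_le_mul_right _ ((Nat.mul_le_mul this this).trans (le_of_eq (by ring)))
  · have hb : ∀ B C : Finset (Fin n), B ∉ near A →
        (prs (cut A) (cut B) (cut C)).card ≤ 2 ^ (mx n - 2 * n) * 2 ^ mx n := fun B C hB =>
      (prs_le _ _ _).trans (Nat.mul_le_mul (Nat.pow_le_pow_right two_pos
        (by have := far_inter hn hB; omega)) (Nat.pow_le_pow_right two_pos (cut_le _)))
    by_cases hm : 2 * n ≤ mx n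
    · refine (sum_le_card_nsmul _ _ (2 ^ (mx n - 2 * n) * 2 ^ mx n) (fun q hq => ?_)).trans ?_
      · have := (mem_filter.1 hq).2
        rw [mem_product, not_and_or] at this
        rcases this with h | h
        · exact hb _ _ h
        · exact (prs_swap _ _ _).trans (hb _ _ h)
      · refine (Nat.mul_le_mul_right _ (card_filter_le _ _)).trans (le_of_eq ?_)
        rw [card_univ, Fintype.card_prod, Fintype.card_finset, Fintype.card_fin, e4, ← mul_assoc,
          ← pow_add, ← pow_add]
        congr 2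
        omega
    · exfalso
      exact hm (le_mx (by nlinarith))

theorem bip_bound (hn : 25 ≤ n) (ρ : ℕ) {t b : ℝ} (ht0 : 0 ≤ t) (ht1 : t ≤ 1)
    (hb : t * (2 * n.choose (n / 2) * 2 ^ mx n) ≤ b) (hρ : t * (2 ^ (n - ρ) * 2 ^ mx n) ≤ 1) :
    ∑ T ∈ (bip n).powerset.filter (fun T => 2 ≤ T.card ∧ ∑ x ∈ T, x ∈ bip n), t ^ T.card ≤
      2 ^ n * ((2 ^ (n.choose 2 - mx n))⁻¹ * (2 ^ n * 2 ^ (ρ * n) * Real.exp b)) +
        t ^ 2 * (2 ^ n * ((100 * n ^ 8 + 1) * 4 ^ mx n)) := by
  refine (fourier_bound (sm n) cut (bip n) (fun x hx => mem_bip_cut hx) ht0 ht1).trans ?_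
  have h1 : ∀ H : Ed n → ZMod 2, Real.exp (t * bet (sm n) cut H) - 1 - t * bet (sm n) cut H ≤
      (if (low H).card ≤ ρ then Real.exp b else 0) + t ^ 2 * bet (sm n) cut H ^ 2 := by
    intro H
    have h0 : 0 ≤ t * bet (sm n) cut H := mul_nonneg ht0 (bet_nonneg H)
    split_ifs with h
    · have : Real.exp (t * bet (sm n) cut H) ≤ Real.exp b :=
        Real.exp_le_exp.2 ((mul_le_mul_of_nonneg_left (bet_le_total H) ht0).trans hb)
      nlinarith [sq_nonneg (t * bet (sm n) cut H)]
    · have h2 : t * bet (sm n) cut H ≤ 1 := by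
        refine le_trans (mul_le_mul_of_nonneg_left ((bet_le_low H).trans ?_) ht0) hρ
        gcongr
        · norm_num
        · omega
      have := Real.abs_exp_sub_one_sub_id_le (x := t * bet (sm n) cut H) (by rwa [abs_of_nonneg h0])
      rw [zero_add, ← mul_pow]
      exact (le_abs_self _).trans this
  calc _ ≤ ∑ A ∈ sm n, ((2 ^ (n.choose 2 - mx n))⁻¹ * (2 ^ n * 2 ^ (ρ * n) * Real.exp b) +
        t ^ 2 * ∑ B ∈ sm n, ∑ C ∈ sm n, ((prs (cut B) (cut C) (cut A)).card : ℝ)) := by
        refine sum_le_sum fun A _ => ?_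
        refine (mul_le_mul_of_nonneg_left (sum_le_sum fun H _ => h1 H) (by positivity)).trans ?_
        rw [sum_add_distrib, mul_add, ← mul_sum, mul_left_comm _ (t ^ 2), second_moment]
        gcongr
        · norm_num
        · rw [card_compl, card_Ed]
          exact Nat.sub_le_sub_left (cut_le A) _
        · rw [← sum_filter, sum_const, nsmul_eq_mul]
          gcongr
          have : ((sup (cut A)ᶜ).filter (fun H => (low H).card ≤ ρ)).card ≤ 2 ^ n * 2 ^ (ρ * n) :=
            (card_le_card (filter_subset_filter _ (subset_univ _))).trans (card_low ρ)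
          exact_mod_cast this
    _ ≤ _ := by
        rw [sum_add_distrib, sum_const, nsmul_eq_mul, ← mul_sum]
        gcongr
        · have : (sm n).card ≤ 2 ^ n := (card_filter_le _ _).trans (by simp)
          exact_mod_cast this
        · have h2 : ∑ A ∈ sm n, ∑ B ∈ sm n, ∑ C ∈ sm n, (prs (cut B) (cut C) (cut A)).card ≤
              2 ^ n * ((100 * n ^ 8 + 1) * 4 ^ mx n) := by
            rw [sum_comm]
            refine (sum_le_card_nsmul _ _ ((100 * n ^ 8 + 1) * 4 ^ mx n) fun B _ => ?_).trans
              (Nat.mul_le_mul_right _ ((card_filter_le _ _).trans (by simp)))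
            refine le_trans ?_ (sum_triples hn B)
            rw [sum_comm, ← sum_product']
            exact sum_le_sum_of_subset (subset_univ _)
          exact_mod_cast h2

end Pool.Agent.Lib.MP_fd8555_co
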