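import Pool.Agent.Lib.MP_fd8555_co.Indep

/-!
Counting bipartite graphs and additive triples of bipartite graphs.
-/

set_option autoImplicit false

namespace Pool.Agent.Lib.MP_fd8555_co

open Finset
open scoped symmDiff

/-- the pairs `i < j`. -/
abbrev Ed (n : ℕ) : Type := {p : Fin n × Fin n // p.1 < p.2}

variable {n : ℕ}

/-- the edges of the cut given by `A`. -/
def cut (A : Finset (Fin n)) : Finset (Ed n) := univ.filter (fun e => ¬ (e.1.1 ∈ A ↔ e.1.2 ∈ A))

/-- vectors supported in a set of coordinates. -/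
def sup {E : Type} [Fintype E] [DecidableEq E] (D : Finset E) : Finset (E → ZMod 2) :=
  univ.filter (fun x => ∀ e ∉ D, x e = 0)

theorem card_sup {E : Type} [Fintype E] [DecidableEq E] (D : Finset E) :
    (sup D).card ≤ 2 ^ D.card := by
  rw [← card_powerset]
  refine card_le_card_of_injOn (fun x => univ.filter (fun e => x e ≠ 0)) (fun x hx => ?_)
    (fun x _ y _ h => ?_)
  · simp only [sup, coe_filter, mem_univ, true_and, Set.mem_ofPred_eq] at hx
    simp only [coe_powerset, Set.mem_preimage, Set.mem_powerset_iff, coe_subset]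
    intro e he
    by_contra h
    exact (mem_filter.1 he).2 (hx e h)
  · funext e
    have := Finset.ext_iff.1 h e
    simp only [mem_filter, mem_univ, true_and] at this
    revert this
    generalize x e = a
    generalize y e = b
    revert a b
    decide

theorem card_cut_in (A U : Finset (Fin n)) :
    ((cut A).filter (fun e => e.1.1 ∈ U ∧ e.1.2 ∈ U)).card ≤ (U ∩ A).card * (U \ A).card := by
  rw [← card_product]
  refine card_le_card_of_injOn (fun e => if e.1.1 ∈ A then e.1 else e.1.swap) (fun e he => ?_)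
    (fun e _ f _ h => ?_)
  · simp only [cut, coe_filter, mem_filter, mem_univ, true_and, Set.mem_ofPred_eq] at he
    by_cases h : e.1.1 ∈ A <;> simp [h] at he ⊢ <;> tauto
  · have h1 := e.2
    have h2 := f.2
    apply Subtype.ext
    by_cases a : e.1.1 ∈ A <;> by_cases b : f.1.1 ∈ A <;> simp only [a, b, if_true, if_false] at h
    · exact h
    · rw [h] at h1; exact absurd h1 (lt_asymm h2)
    · rw [← h] at h2; exact absurd h2 (lt_asymm h1)
    · exact Prod.swap_injective h

theorem four_cut_in (A U : Finset (Fin n)) :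
    4 * ((cut A).filter (fun e => e.1.1 ∈ U ∧ e.1.2 ∈ U)).card ≤ U.card ^ 2 := by
  have h := card_cut_in A U
  rw [← card_inter_add_card_sdiff U A]
  nlinarith [four_mul_le_sq_add ((U ∩ A).card : ℤ) (U \ A).card]

theorem card_cut (A : Finset (Fin n)) : (cut A).card ≤ A.card * (n - A.card) := by
  simpa [card_sdiff, card_univ] using card_cut_in A univ

/-- the size of the largest cut. -/
def mx (n : ℕ) : ℕ := (n + 1) / 2 * (n / 2)

theorem le_mx {k : ℕ} (h : 4 * k ≤ n ^ 2) : k ≤ mx n := by
  rw [mx]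
  rcases Nat.even_or_odd' n with ⟨m, rfl | rfl⟩
  · rw [show (2 * m + 1) / 2 = m by omega, show 2 * m / 2 = m by omega]; nlinarith
  · rw [show (2 * m + 1 + 1) / 2 = m + 1 by omega, show (2 * m + 1) / 2 = m by omega]
    by_contra h'
    push Not at h'
    nlinarith

theorem cut_le (A : Finset (Fin n)) : (cut A).card ≤ mx n :=
  le_mx (by simpa using four_cut_in A univ)

theorem cut_inter (A B : Finset (Fin n)) :
    4 * (cut A ∩ cut B).card ≤ (A ∆ B).card ^ 2 + (A ∆ B)ᶜ.card ^ 2 := by
  have h : cut A ∩ cut B ⊆ (cut A).filter (fun e => e.1.1 ∈ A ∆ B ∧ e.1.2 ∈ A ∆ B) ∪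
      (cut A).filter (fun e => e.1.1 ∈ (A ∆ B)ᶜ ∧ e.1.2 ∈ (A ∆ B)ᶜ) := by
    intro e
    simp only [cut, mem_inter, mem_filter, mem_univ, true_and, mem_union, mem_compl,
      Finset.mem_symmDiff]
    tauto
  have := (card_le_card h).trans (card_union_le _ _)
  linarith [four_cut_in A (A ∆ B), four_cut_in A (A ∆ B)ᶜ]

/-- cuts close to the cut given by `A`. -/
def near (A : Finset (Fin n)) : Finset (Finset (Fin n)) :=
  univ.filter (fun B => (A ∆ B).card ≤ 4 ∨ (A ∆ B)ᶜ.card ≤ 4)

theorem far_inter (hn : 25 ≤ n) {A B : Finset (Fin n)} (h : B ∉ near A) :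
    (cut A ∩ cut B).card + 2 * n ≤ mx n := by
  simp only [near, mem_filter, mem_univ, true_and, not_or, not_le] at h
  have h1 := cut_inter A B
  have h2 := card_add_card_compl (A ∆ B)
  rw [Fintype.card_fin] at h2
  apply le_mx
  obtain ⟨j, hj⟩ : ∃ j, (A ∆ B).card = j + 5 := ⟨(A ∆ B).card - 5, by omega⟩
  obtain ⟨k, hk⟩ : ∃ k, (A ∆ B)ᶜ.card = k + 5 := ⟨(A ∆ B)ᶜ.card - 5, by omega⟩
  rw [hj, hk] at h1 h2
  subst h2
  nlinarith [Nat.zero_le (j * k)]

theorem card_small (hn : 1 ≤ n) :
    (univ.filter (fun B : Finset (Fin n) => B.card ≤ 4)).card ≤ 5 * n ^ 4 := by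
  have h : univ.filter (fun B : Finset (Fin n) => B.card ≤ 4) ⊆
      (range 5).biUnion (fun j => powersetCard j univ) := by
    intro B hB
    simp only [mem_filter, mem_univ, true_and] at hB
    exact mem_biUnion.2 ⟨B.card, mem_range.2 (by omega), mem_powersetCard.2 ⟨subset_univ _, rfl⟩⟩
  refine (card_le_card h).trans (card_biUnion_le_card_mul _ _ (n ^ 4) (fun j hj => ?_))
  rw [card_powersetCard, card_univ, Fintype.card_fin]
  exact (Nat.choose_le_pow n j).trans (Nat.pow_le_pow_right hn (by have := mem_range.1 hj; omega))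

theorem card_near (hn : 1 ≤ n) (A : Finset (Fin n)) : (near A).card ≤ 10 * n ^ 4 := by
  rw [near, filter_or]
  refine (card_union_le _ _).trans ?_
  have h1 : (univ.filter (fun B => (A ∆ B).card ≤ 4)).card ≤ 5 * n ^ 4 :=
    le_trans (card_le_card_of_injOn (fun B => A ∆ B) (fun B hB => by simpa using hB)
      (fun B _ C _ h => symmDiff_right_injective A h)) (card_small hn)
  have h2 : (univ.filter (fun B => (A ∆ B)ᶜ.card ≤ 4)).card ≤ 5 * n ^ 4 :=
    le_trans (card_le_card_of_injOn (fun B => (A ∆ B)ᶜ) (fun B hB => by simpa using hB)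
      (fun B _ C _ h => symmDiff_right_injective A (compl_injective h))) (card_small hn)
  omega

/-- pairs with prescribed supports. -/
def prs {E : Type} [Fintype E] [DecidableEq E] (D1 D2 D3 : Finset E) :
    Finset ((E → ZMod 2) × (E → ZMod 2)) :=
  univ.filter (fun p => p.1 ∈ sup D1 ∧ p.2 ∈ sup D2 ∧ p.1 + p.2 ∈ sup D3)

theorem prs_le {E : Type} [Fintype E] [DecidableEq E] (D1 D2 D3 : Finset E) :
    (prs D1 D2 D3).card ≤ 2 ^ (D1 ∩ D2).card * 2 ^ D3.card := by
  refine le_trans (card_le_card_of_injOn (t := sup (D1 ∩ D2) ×ˢ sup D3)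
    (fun p => (fun e => if e ∈ D2 then p.1 e else 0, p.1 + p.2)) (fun p hp => ?_)
    (fun p hp q hq h => ?_)) ?_
  · simp only [prs, sup, coe_filter, mem_filter, mem_univ, true_and, Set.mem_ofPred_eq,
      coe_product, Set.mem_prod, mem_inter] at hp ⊢
    refine ⟨fun e he => ?_, hp.2.2⟩
    split_ifs with h
    · exact hp.1 e (fun h' => he ⟨h', h⟩)
    · rfl
  · simp only [prs, sup, coe_filter, mem_filter, mem_univ, true_and, Set.mem_ofPred_eq,
      Prod.mk.injEq] at hp hq h
    have h1 : p.1 = q.1 := by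
      funext e
      by_cases he : e ∈ D2
      · simpa [he] using congrFun h.1 e
      · simpa [hp.2.1 e he, hq.2.1 e he] using congrFun h.2 e
    exact Prod.ext h1 (add_left_cancel (h1 ▸ h.2))
  · rw [card_product]
    exact Nat.mul_le_mul (card_sup _) (card_sup _)

theorem prs_swap {E : Type} [Fintype E] [DecidableEq E] (D1 D2 D3 : Finset E) :
    (prs D1 D2 D3).card ≤ (prs D1 D3 D2).card := by
  refine card_le_card_of_injOn (fun p => (p.1, p.1 + p.2)) (fun p hp => ?_) (fun p _ q _ h => ?_)
  · simp only [prs, coe_filter, mem_univ, true_and, Set.mem_ofPred_eq] at hp ⊢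
    refine ⟨hp.1, hp.2.2, ?_⟩
    have : p.1 + (p.1 + p.2) = p.2 := by
      funext e
      simp [← add_assoc, CharTwo.add_self_eq_zero]
    rw [this]
    exact hp.2.1
  · simp only [Prod.mk.injEq] at h
    exact Prod.ext h.1 (add_left_cancel (h.1 ▸ h.2))

/-- nonzero vectors whose support is a bipartite graph. -/
def bip (n : ℕ) : Finset (Ed n → ZMod 2) := (univ.biUnion (fun A => sup (cut A))).erase 0

theorem card_triples (hn : 25 ≤ n) :
    ((bip n ×ˢ bip n).filter (fun p => p.1 + p.2 ∈ bip n)).card ≤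
      2 ^ n * ((100 * n ^ 8 + 1) * 4 ^ mx n) := by
  have h : (bip n ×ˢ bip n).filter (fun p => p.1 + p.2 ∈ bip n) ⊆ univ.biUnion (fun A =>
      univ.biUnion (fun q : Finset (Fin n) × Finset (Fin n) => prs (cut A) (cut q.1) (cut q.2))) := by
    intro p hp
    simp only [bip, mem_filter, mem_product, mem_erase, mem_biUnion, mem_univ, true_and] at hp
    obtain ⟨⟨⟨_, A, hA⟩, _, B, hB⟩, _, C, hC⟩ := hp
    simp only [mem_biUnion, mem_univ, true_and]
    exact ⟨A, (B, C), mem_filter.2 ⟨mem_univ _, hA, hB, hC⟩⟩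
  refine (card_le_card h).trans ((card_biUnion_le_card_mul _ _ ((100 * n ^ 8 + 1) * 4 ^ mx n)
    (fun A _ => ?_)).trans (by simp))
  refine card_biUnion_le.trans ?_
  have e4 : 4 ^ mx n = 2 ^ mx n * 2 ^ mx n := by rw [← mul_pow, show 2 * 2 = 4 from rfl]
  rw [← sum_filter_add_sum_filter_not univ (fun q => q ∈ near A ×ˢ near A), add_mul, one_mul]
  refine Nat.add_le_add ?_ ?_
  · refine (sum_le_card_nsmul _ _ (4 ^ mx n) (fun q _ => (prs_le _ _ _).trans ?_)).trans ?_
    · rw [e4]
      exact Nat.mul_le_mul (Nat.pow_le_pow_right two_pos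
        ((card_le_card inter_subset_left).trans (cut_le _))) (Nat.pow_le_pow_right two_pos (cut_le _))
    · rw [filter_mem_eq_inter, univ_inter, card_product, smul_eq_mul]
      have := card_near (by omega) A
      exact Nat.mul_le_mul_right _ ((Nat.mul_le_mul this this).trans (le_of_eq (by ring)))
  · have hb : ∀ B C : Finset (Fin n), B ∉ near A →
        (prs (cut A) (cut B) (cut C)).card ≤ 2 ^ (mx n - 2 * n) * 2 ^ mx n := fun B C hB =>
      (prs_le _ _ _).trans (Nat.mul_le_mul (Nat.pow_le_pow_right two_pos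
        (by have := far_inter hn hB; omega)) (Nat.pow_le_pow_right two_pos (cut_le _)))
    by_cases hm : 2 * n ≤ mx n
    · refine (sum_le_card_nsmul _ _ (2 ^ (mx n - 2 * n) * 2 ^ mx n) (fun q hq => ?_)).trans ?_
      · have := (mem_filter.1 hq).2
        rw [mem_product, not_and_or] at this
        rcases this with h | h
        · exact hb _ _ h
        · exact (prs_swap _ _ _).trans (hb _ _ h)
      · refine (Nat.mul_le_mul_right _ (card_filter_le _ _)).trans (le_of_eq ?_)
        rw [card_univ, Fintype.card_prod, Fintype.card_finset, Fintype.card_fin, e4, ← mul_assoc,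
          ← pow_add, ← pow_add]
        congr 2
        omega
    · exfalso
      exact hm (le_mx (by nlinarith))

theorem geo (h M : ℕ) (f : ℕ → ℕ) (hf : ∀ a ≤ h, f a + (h - a) ≤ M) :
    ∑ a ∈ range (h + 1), 2 ^ f a ≤ 2 * 2 ^ M := by
  induction h generalizing M with
  | zero => simpa using (Nat.pow_le_pow_right two_pos (by simpa using hf 0 le_rfl)).trans (by omega)
  | succ h ih =>
    have h1 := hf 0 (Nat.zero_le _)
    obtain ⟨M, rfl⟩ : ∃ K, M = K + 1 := ⟨M - 1, by omega⟩
    rw [sum_range_succ]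
    have h2 := ih M (fun a ha => by have := hf a (by omega); omega)
    have h3 : 2 ^ f (h + 1) ≤ 2 ^ (M + 1) :=
      Nat.pow_le_pow_right two_pos (by have := hf (h + 1) le_rfl; omega)
    rw [pow_succ] at h3 ⊢
    omega

theorem half_bound {a : ℕ} (ha : a ≤ n / 2) : a * (n - a) + (n / 2 - a) ≤ mx n := by
  rw [mx]
  obtain ⟨t, ht⟩ : ∃ t, n / 2 = a + t := ⟨n / 2 - a, by omega⟩
  rcases Nat.even_or_odd' n with ⟨m, rfl | rfl⟩
  · rw [show (2 * m + 1) / 2 = a + t by omega, ht, show 2 * m - a = a + 2 * t by omega,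
      Nat.add_sub_cancel_left]
    nlinarith [Nat.le_mul_self t]
  · rw [show (2 * m + 1 + 1) / 2 = a + t + 1 by omega, ht, show 2 * m + 1 - a = a + 2 * t + 1 by omega,
      Nat.add_sub_cancel_left]
    nlinarith

theorem card_bip : (bip n).card ≤ 2 * n.choose (n / 2) * 2 ^ mx n := by
  have h : bip n ⊆ (range (n / 2 + 1)).biUnion (fun a =>
      (powersetCard a univ).biUnion (fun A => sup (cut A))) := by
    intro x hx
    simp only [bip, mem_erase, mem_biUnion, mem_univ, true_and] at hx
    obtain ⟨_, A, hA⟩ := hx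
    simp only [mem_biUnion, mem_range, mem_powersetCard, subset_univ, true_and]
    by_cases h : A.card ≤ n / 2
    · exact ⟨_, by omega, A, rfl, hA⟩
    · have h2 := card_add_card_compl A
      rw [Fintype.card_fin] at h2
      refine ⟨_, by omega, Aᶜ, rfl, ?_⟩
      have : cut Aᶜ = cut A := by
        ext e
        simp only [cut, mem_filter, mem_compl]
        tauto
      rwa [this]
  refine (card_le_card h).trans (card_biUnion_le.trans ?_)
  have h2 := geo (n / 2) (mx n) (fun a => a * (n - a)) (fun a ha => half_bound ha)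
  rw [mul_comm 2, mul_assoc]
  refine le_trans ?_ (Nat.mul_le_mul_left _ h2)
  rw [mul_sum]
  refine sum_le_sum (fun a _ => (card_biUnion_le_card_mul _ _ (2 ^ (a * (n - a))) (fun A hA => ?_)).trans ?_)
  · exact (card_sup _).trans (Nat.pow_le_pow_right two_pos
      ((mem_powersetCard.1 hA).2 ▸ card_cut A))
  · rw [card_powersetCard, card_univ, Fintype.card_fin]
    exact Nat.mul_le_mul_right _ (Nat.choose_le_middle a n)

theorem card_Ed (n : ℕ) : Fintype.card (Ed n) = n.choose 2 := by
  rw [Fintype.card_subtype]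
  have := Finset.card_product_filter_lt (s := (univ : Finset (Fin n)))
  simpa using this

end Pool.Agent.Lib.MP_fd8555_co
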