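import Pool.Agent.Lib.MP_fd8555_co.Count

/-!
The Kleitman-Rothschild method for triangle-free graphs: classes and the structure lemma.
-/

set_option autoImplicit false

namespace Pool.Agent.Lib.MP_fd8555_co

open Finset Classical

variable {α : Type} [Fintype α]

/-- triangle-free graphs with all edges inside `U`. -/
noncomputable def TF (U : Finset α) : Finset (SimpleGraph α) :=
  univ.filter (fun G => G.CliqueFree 3 ∧ ∀ x y, G.Adj x y → x ∈ U)

/-- neighbourhood of a vertex. -/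
noncomputable def nb (G : SimpleGraph α) (v : α) : Finset α := univ.filter (G.Adj v)

/-- neighbourhood of a set. -/
noncomputable def NQ (G : SimpleGraph α) (Q : Finset α) : Finset α :=
  univ.filter (fun x => ∃ q ∈ Q, G.Adj q x)

theorem mem_TF {U : Finset α} {G : SimpleGraph α} :
    G ∈ TF U ↔ G.CliqueFree 3 ∧ ∀ x y, G.Adj x y → x ∈ U := by simp [TF]

theorem mem_nb {G : SimpleGraph α} {v x : α} : x ∈ nb G v ↔ G.Adj v x := by simp [nb]

theorem mem_NQ {G : SimpleGraph α} {Q : Finset α} {x : α} :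
    x ∈ NQ G Q ↔ ∃ q ∈ Q, G.Adj q x := by simp [NQ]

/-- delete the edges at the vertices of `Q`. -/
def res (Q : Finset α) (G : SimpleGraph α) : SimpleGraph α where
  Adj x y := G.Adj x y ∧ x ∉ Q ∧ y ∉ Q
  symm := ⟨fun _ _ h => ⟨h.1.symm, h.2.2, h.2.1⟩⟩
  loopless := ⟨fun _ h => G.irrefl h.1⟩

omit [Fintype α] in
theorem notri {G : SimpleGraph α} (h : G.CliqueFree 3) {a b c : α} (h1 : G.Adj a b)
    (h2 : G.Adj a c) (h3 : G.Adj b c) : False :=
  h {a, b, c} (SimpleGraph.is3Clique_triple_iff.2 ⟨h1, h2, h3⟩)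

theorem res_mem {U Q : Finset α} {G : SimpleGraph α} (h : G ∈ TF U) : res Q G ∈ TF (U \ Q) := by
  rw [mem_TF] at h ⊢
  exact ⟨h.1.anti (fun _ _ e => e.1), fun x y e => mem_sdiff.2 ⟨h.2 x y e.1, e.2.1⟩⟩

theorem ext_res {Q : Finset α} {G G' : SimpleGraph α} (h : res Q G = res Q G')
    (h2 : ∀ v ∈ Q, nb G v = nb G' v) : G = G' := by
  ext x y
  by_cases hx : x ∈ Q
  · rw [← mem_nb, ← mem_nb, h2 x hx]
  by_cases hy : y ∈ Q
  · rw [G.adj_comm, G'.adj_comm, ← mem_nb, ← mem_nb, h2 y hy]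
  have : (res Q G).Adj x y ↔ (res Q G').Adj x y := by rw [h]
  simpa [res, hx, hy] using this

theorem removal {β : Type} {U Q : Finset α} {𝒢 : Finset (SimpleGraph α)} (h𝒢 : 𝒢 ⊆ TF U)
    (code : SimpleGraph α → β) (t : SimpleGraph α → Finset β) (M : ℝ) (hM0 : 0 ≤ M)
    (h1 : ∀ G ∈ 𝒢, code G ∈ t (res Q G))
    (h2 : ∀ G G', code G = code G' → ∀ v ∈ Q, nb G v = nb G' v)
    (h3 : ∀ G ∈ 𝒢, ((t (res Q G)).card : ℝ) ≤ M) :
    (𝒢.card : ℝ) ≤ M * (TF (U \ Q)).card := by
  rw [card_eq_sum_card_fiberwise (f := res Q) (t := TF (U \ Q)) (fun G hG => res_mem (h𝒢 hG)),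
    mul_comm, ← nsmul_eq_mul, ← sum_const]
  push_cast
  refine sum_le_sum fun G' _ => ?_
  rcases (𝒢.filter (fun G => res Q G = G')).eq_empty_or_nonempty with h | ⟨G0, hG0⟩
  · simp [h, hM0]
  · obtain ⟨hG1, rfl⟩ := mem_filter.1 hG0
    refine le_trans ?_ (h3 G0 hG1)
    have : (𝒢.filter (fun G => res Q G = res Q G0)).card ≤ (t (res Q G0)).card := by
      refine card_le_card_of_injOn code (fun G hG => ?_) (fun G hG G' hG' h => ?_)
      · obtain ⟨a, b⟩ := mem_filter.1 hG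
        exact b ▸ h1 G a
      · exact ext_res ((mem_filter.1 hG).2.trans (mem_filter.1 hG').2.symm) (h2 G G' h)
    exact_mod_cast this

omit [Fintype α] in
theorem small_sets (U : Finset α) (hU : 1 ≤ U.card) (k : ℕ) :
    (U.powerset.filter (fun Q => Q.card ≤ k)).card ≤ (k + 1) * U.card ^ k := by
  have h : U.powerset.filter (fun Q => Q.card ≤ k) ⊆
      (range (k + 1)).biUnion (fun j => powersetCard j U) := by
    intro B hB
    obtain ⟨h1, h2⟩ := mem_filter.1 hB
    exact mem_biUnion.2 ⟨B.card, mem_range.2 (by omega), mem_powersetCard.2 ⟨mem_powerset.1 h1, rfl⟩⟩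
  refine (card_le_card h).trans ((card_biUnion_le_card_mul _ _ (U.card ^ k) fun j hj => ?_).trans
    (by simp))
  rw [card_powersetCard]
  exact (Nat.choose_le_pow _ _).trans (Nat.pow_le_pow_right hU (by simpa [Nat.lt_succ_iff] using hj))

theorem structure_lemma {U : Finset α} {G : SimpleGraph α} (hG : G ∈ TF U)
    (hA : ∀ v ∈ U, 200 < (nb G v).card)
    (hB : ∀ Q ⊆ U, Q.card = 200 → 49 * U.card < 100 * (NQ G Q).card)
    (hC : ∀ v w, G.Adj v w → ∀ Q ⊆ (nb G v).erase w, ∀ Q' ⊆ (nb G w).erase v, Q.card ≤ 201 →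
      Q'.card ≤ 201 → 49 * U.card ≤ 100 * (NQ G Q).card → 49 * U.card ≤ 100 * (NQ G Q').card →
      100 * (NQ G Q ∩ NQ G Q').card < 4 * U.card) : G.Colorable 2 := by
  obtain ⟨htri, hU⟩ := mem_TF.1 hG
  have hU' : ∀ x y, G.Adj x y → y ∈ U := fun x y h => hU y x h.symm
  have hB' : ∀ Q ⊆ U, 200 ≤ Q.card → 49 * U.card < 100 * (NQ G Q).card := by
    intro Q hQ h
    obtain ⟨Q', h1, h2⟩ := exists_subset_card_eq h
    refine (hB Q' (h1.trans hQ) h2).trans_le (Nat.mul_le_mul_left _ (card_le_card fun x hx => ?_))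
    obtain ⟨q, hq, e⟩ := mem_NQ.1 hx
    exact mem_NQ.2 ⟨q, h1 hq, e⟩
  have hQ : ∀ v ∈ U, ∃ Q ⊆ nb G v, Q.card = 201 := fun v hv => exists_subset_card_eq (hA v hv)
  choose! Q hQ1 hQ2 using hQ
  have hQU : ∀ v ∈ U, Q v ⊆ U := fun v hv x hx => hU' v x (mem_nb.1 (hQ1 v hv hx))
  let R : α → Finset α := fun v => NQ G (Q v)
  have hRU : ∀ v, R v ⊆ U := fun v x hx => by
    obtain ⟨q, -, e⟩ := mem_NQ.1 hx
    exact hU' _ _ e
  have hR1 : ∀ v ∈ U, 49 * U.card < 100 * (R v).card := fun v hv =>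
    hB' _ (hQU v hv) (by rw [hQ2 v hv]; omega)
  have hR2 : ∀ v w, G.Adj v w → 100 * (R v ∩ R w).card < 4 * U.card := by
    intro v w h
    have hv := hU _ _ h
    have hw := hU' _ _ h
    have c1 : 200 ≤ ((Q v).erase w).card := by
      have := pred_card_le_card_erase (s := Q v) (a := w)
      rw [hQ2 v hv] at this
      omega
    have c2 : 200 ≤ ((Q w).erase v).card := by
      have := pred_card_le_card_erase (s := Q w) (a := v)
      rw [hQ2 w hw] at this
      omega
    refine lt_of_le_of_lt (Nat.mul_le_mul_left _ (card_le_card fun x hx => ?_))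
      (hC v w h ((Q v).erase w) (erase_subset_erase _ (hQ1 v hv)) ((Q w).erase v)
        (erase_subset_erase _ (hQ1 w hw)) (card_erase_le.trans (hQ2 v hv).le)
        (card_erase_le.trans (hQ2 w hw).le)
        (hB' _ ((erase_subset _ _).trans (hQU v hv)) c1).le
        (hB' _ ((erase_subset _ _).trans (hQU w hw)) c2).le)
    obtain ⟨hx1, hx2⟩ := mem_inter.1 hx
    obtain ⟨q, hq, e⟩ := mem_NQ.1 hx1
    obtain ⟨q', hq', e'⟩ := mem_NQ.1 hx2
    refine mem_inter.2 ⟨mem_NQ.2 ⟨q, mem_erase.2 ⟨?_, hq⟩, e⟩, mem_NQ.2 ⟨q', mem_erase.2 ⟨?_, hq'⟩, e'⟩⟩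
    · rintro rfl
      exact notri htri (mem_nb.1 (hQ1 q hw hq')) e e'
    · rintro rfl
      exact notri htri (mem_nb.1 (hQ1 q' hv hq)) e' e
  have hun : ∀ v w, G.Adj v w → 94 * U.card < 100 * (R v ∪ R w).card := by
    intro v w h
    have h1 := card_union_add_card_inter (R v) (R w)
    have h2 := hR1 v (hU _ _ h)
    have h3 := hR1 w (hU' _ _ h)
    have h4 := hR2 v w h
    omega
  have hR3 : ∀ a b c, G.Adj a b → G.Adj b c → 100 * (R a \ R c).card < 10 * U.card := by
    intro a b c h1 h2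
    have e1 : R a \ R c ⊆ (R a ∩ R b) ∪ (U \ (R b ∪ R c)) := by
      intro x hx
      obtain ⟨x1, x2⟩ := mem_sdiff.1 hx
      by_cases hb : x ∈ R b
      · exact mem_union_left _ (mem_inter.2 ⟨x1, hb⟩)
      · exact mem_union_right _ (mem_sdiff.2 ⟨hRU a x1, by simp [hb, x2]⟩)
    have e2 := (card_le_card e1).trans (card_union_le _ _)
    have e3 := card_sdiff_add_card_eq_card (union_subset (hRU b) (hRU c))
    have e4 := hR2 a b h1
    have e5 := hun b c h2
    omega
  have hR4 : ∀ x ∈ U, ∀ y ∈ U, (R x ∩ R y).Nonempty → 100 * (R y \ R x).card < 20 * U.card := by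
    rintro x hx y hy ⟨z, hz⟩
    obtain ⟨hz1, hz2⟩ := mem_inter.1 hz
    obtain ⟨q, hq, e⟩ := mem_NQ.1 hz1
    obtain ⟨q', hq', e'⟩ := mem_NQ.1 hz2
    have a1 := hR3 y q' z (mem_nb.1 (hQ1 y hy hq')) e'
    have a2 := hR3 z q x e.symm (mem_nb.1 (hQ1 x hx hq)).symm
    have a3 := card_le_card (sdiff_triangle (R y) (R z) (R x))
    have a4 := card_union_le (R y \ R z) (R z \ R x)
    simp only [sup_eq_union] at a3
    omega
  have hR5 : ∀ y ∈ U, ∀ x x', G.Adj x x' → 100 * (R y \ R x).card < 20 * U.card →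
      100 * (R y \ R x').card < 20 * U.card → False := by
    intro y hy x x' h h1 h2
    have e1 : R y ⊆ (R x ∩ R x') ∪ ((R y \ R x) ∪ (R y \ R x')) := by
      intro z hz
      by_cases a : z ∈ R x <;> by_cases b : z ∈ R x' <;> simp [a, b, hz]
    have e2 := (card_le_card e1).trans ((card_union_le _ _).trans
      (Nat.add_le_add_left (card_union_le _ _) _))
    have e3 := hR1 y hy
    have e4 := hR2 x x' h
    omega
  by_cases hE : ∃ v w, G.Adj v w
  · obtain ⟨v, w, hvw⟩ := hE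
    have hv := hU _ _ hvw
    have hw := hU' _ _ hvw
    have hx : ∀ x ∈ U, ¬ 100 * (R v \ R x).card < 20 * U.card →
        100 * (R w \ R x).card < 20 * U.card := by
      intro x hx h
      refine hR4 x hx w hw ?_
      by_contra h2
      rw [not_nonempty_iff_eq_empty, ← disjoint_iff_inter_eq_empty] at h2
      have h3 : Disjoint (R x) (R v) := by
        by_contra h3
        exact h (hR4 x hx v hv (not_disjoint_iff_nonempty_inter.1 h3))
      have h4 := card_union_of_disjoint (disjoint_union_right.2 ⟨h3, h2⟩)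
      have h5 := card_le_card (union_subset (hRU x) (union_subset (hRU v) (hRU w)))
      have h6 := hun v w hvw
      have h7 := hR1 x hx
      omega
    refine ⟨SimpleGraph.Coloring.mk
      (fun x => if 100 * (R v \ R x).card < 20 * U.card then 0 else 1) fun {x x'} h => ?_⟩
    by_cases a : 100 * (R v \ R x).card < 20 * U.card <;>
      by_cases b : 100 * (R v \ R x').card < 20 * U.card
    · exact (hR5 v hv x x' h a b).elim
    · simp [a, b]
    · simp [a, b]
    · exact (hR5 w hw x x' h (hx x (hU _ _ h) a) (hx x' (hU' _ _ h) b)).elim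
  · exact ⟨SimpleGraph.Coloring.mk (fun _ => 0) fun {x x'} h => absurd ⟨x, x', h⟩ hE⟩

end Pool.Agent.Lib.MP_fd8555_co
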