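import Pool.Agent.Lib.MP_fd8555_co.EKR1

/-!
The Kleitman-Rothschild method for triangle-free graphs: counting the classes.
-/

set_option autoImplicit false

namespace Pool.Agent.Lib.MP_fd8555_co

open Finset Classical

variable {α : Type} [Fintype α]

theorem nb_sub {U : Finset α} {G : SimpleGraph α} (hG : G ∈ TF U) (v : α) : nb G v ⊆ U :=
  fun x hx => (mem_TF.1 hG).2 x v (mem_nb.1 hx).symm

theorem clsA (U : Finset α) (hU : 1 ≤ U.card) (v : α) :
    (((TF U).filter (fun G => (nb G v).card ≤ 200)).card : ℝ) ≤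
      (201 * U.card ^ 200 : ℕ) * (TF (U \ {v})).card := by
  refine removal (filter_subset _ _) (fun G => nb G v)
    (fun _ => U.powerset.filter (fun Q => Q.card ≤ 200)) _ (by positivity) (fun G hG => ?_)
    (fun G G' h w hw => by rw [mem_singleton.1 hw]; exact h)
    (fun _ _ => by exact_mod_cast small_sets U hU 200)
  obtain ⟨h1, h2⟩ := mem_filter.1 hG
  exact mem_filter.2 ⟨mem_powerset.2 (nb_sub h1 v), h2⟩

theorem clsB (U Q R : Finset α) :
    (((TF U).filter (fun G => NQ G Q = R)).card : ℝ) ≤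
      (2 ^ (R.card * Q.card) : ℕ) * (TF (U \ Q)).card := by
  refine removal (filter_subset _ _) (fun G => fun q : Q => nb G (q : α))
    (fun _ => Fintype.piFinset (fun _ => R.powerset)) _ (by positivity) (fun G hG => ?_)
    (fun G G' h w hw => congrFun h ⟨w, hw⟩) (fun _ _ => ?_)
  · obtain ⟨-, h2⟩ := mem_filter.1 hG
    rw [Fintype.mem_piFinset]
    intro q
    rw [mem_powerset, ← h2]
    exact fun x hx => mem_NQ.2 ⟨q, q.2, mem_nb.1 hx⟩
  · rw [Fintype.card_piFinset]
    simp [pow_mul]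

/-- the allowed adjacency patterns of a vertex to the two removed vertices. -/
noncomputable def alw (U R R' : Finset α) (x : α) : Finset (Bool × Bool) :=
  univ.filter (fun p => (p.1 = true → x ∈ U ∧ x ∉ R) ∧ (p.2 = true → x ∈ U ∧ x ∉ R') ∧
    ¬ (p.1 = true ∧ p.2 = true))

omit [Fintype α] in
theorem card_alw (U R R' : Finset α) (hR : R ⊆ U) (x : α) :
    ((alw U R R' x).card : ℝ) = (if x ∈ U then 2 else 1) * (if x ∈ R ∩ R' then 1 / 2 else 1) *
      (if x ∈ U \ (R ∪ R') then 3 / 2 else 1) := by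
  have c1 : (univ.filter (fun p : Bool × Bool => ¬ p.1 = true ∧ ¬ p.2 = true ∧
    ¬ (p.1 = true ∧ p.2 = true))).card = 1 := by decide
  have c2 : (univ.filter (fun p : Bool × Bool => ¬ p.1 = true ∧
    ¬ (p.1 = true ∧ p.2 = true))).card = 2 := by decide
  have c3 : (univ.filter (fun p : Bool × Bool => ¬ p.2 = true ∧
    ¬ (p.1 = true ∧ p.2 = true))).card = 2 := by decide
  have c4 : (univ.filter (fun p : Bool × Bool => ¬ (p.1 = true ∧ p.2 = true))).card = 3 := by decide
  by_cases hU : x ∈ U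
  · by_cases h1 : x ∈ R <;> by_cases h2 : x ∈ R'
    · have : (alw U R R' x).card = 1 := by
        rw [← c1, alw]; congr 1; ext p; simp [h1, h2]
      rw [this]; simp [hU, h1, h2]
    · have : (alw U R R' x).card = 2 := by
        rw [← c2, alw]; congr 1; ext p; simp [h1, h2, hU]
      rw [this]; simp [hU, h1, h2]
    · have : (alw U R R' x).card = 2 := by
        rw [← c3, alw]; congr 1; ext p; simp [h1, h2, hU]
      rw [this]; simp [hU, h1, h2]
    · have : (alw U R R' x).card = 3 := by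
        rw [← c4, alw]; congr 1; ext p; simp [h1, h2, hU]
      rw [this]; simp [hU, h1, h2]; norm_num
  · have h1 : x ∉ R := fun h => hU (hR h)
    have : (alw U R R' x).card = 1 := by
      rw [← c1, alw]; congr 1; ext p; simp [hU]
    rw [this]; simp [hU, h1]

theorem card_pi_alw (U R R' : Finset α) (hR : R ⊆ U) (hR' : R' ⊆ U)
    (h1 : 49 * U.card ≤ 100 * (R.card + 2)) (h2 : 49 * U.card ≤ 100 * (R'.card + 2))
    (h3 : 4 * U.card ≤ 100 * ((R ∩ R').card + 2)) :
    ((Fintype.piFinset (alw U R R')).card : ℝ) ≤ 14 * 2 ^ U.card * (27 / 32) ^ (U.card / 50) := by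
  rw [Fintype.card_piFinset]
  push_cast
  simp only [card_alw U R R' hR]
  rw [prod_mul_distrib, prod_mul_distrib, prod_ite_mem, prod_ite_mem, prod_ite_mem, univ_inter,
    univ_inter, univ_inter, prod_const, prod_const, prod_const]
  have e1 := card_sdiff_add_card_eq_card (union_subset hR hR')
  have e2 := card_union_add_card_inter R R'
  set a := (R ∩ R').card
  set c := (U \ (R ∪ R')).card
  set m := U.card / 50 with hm
  have hc : c ≤ a + m + 5 := by omega
  have ha : 2 * m ≤ a + 2 := by omega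
  have b1 : (3 / 2 : ℝ) ^ c ≤ (3 / 2) ^ (a + m + 5) := pow_le_pow_right₀ (by norm_num) hc
  have b2 : (3 / 4 : ℝ) ^ (a + 2) ≤ (3 / 4) ^ (2 * m) :=
    pow_le_pow_of_le_one (by norm_num) (by norm_num) ha
  have b3 : (1 / 2 : ℝ) ^ a * (3 / 2) ^ a = (3 / 4) ^ a := by rw [← mul_pow]; norm_num
  have b4 : (3 / 4 : ℝ) ^ (2 * m) * (3 / 2) ^ m = (27 / 32) ^ m := by
    rw [pow_mul, ← mul_pow]; norm_num
  have b5 : (1 / 2 : ℝ) ^ a * (3 / 2) ^ c ≤ 14 * (27 / 32) ^ m := by
    calc (1 / 2 : ℝ) ^ a * (3 / 2) ^ c ≤ (1 / 2) ^ a * (3 / 2) ^ (a + m + 5) := by gcongr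
      _ = (3 / 4) ^ (a + 2) * (3 / 2) ^ m * (27 / 2) := by
          rw [pow_add, pow_add, ← mul_assoc, ← mul_assoc, b3, pow_add]; ring
      _ ≤ (3 / 4) ^ (2 * m) * (3 / 2) ^ m * 14 := by gcongr; norm_num
      _ = _ := by rw [b4, mul_comm]
  calc (2 : ℝ) ^ U.card * (1 / 2) ^ a * (3 / 2) ^ c = 2 ^ U.card * ((1 / 2) ^ a * (3 / 2) ^ c) := by
        ring
    _ ≤ 2 ^ U.card * (14 * (27 / 32) ^ m) := by gcongr
    _ = _ := by ring

theorem clsC (U : Finset α) (v w : α) (Q Q' : Finset α) :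
    (((TF U).filter (fun G => G.Adj v w ∧ Q ⊆ (nb G v).erase w ∧ Q' ⊆ (nb G w).erase v ∧
      49 * U.card ≤ 100 * (NQ G Q).card ∧ 49 * U.card ≤ 100 * (NQ G Q').card ∧
      4 * U.card ≤ 100 * (NQ G Q ∩ NQ G Q').card)).card : ℝ) ≤
      (14 * 2 ^ U.card * (27 / 32) ^ (U.card / 50)) * (TF (U \ {v, w})).card := by
  refine removal (filter_subset _ _)
    (fun G => fun x : α => (decide (G.Adj v x), decide (G.Adj w x)))
    (fun G' => Fintype.piFinset (alw U (NQ G' Q) (NQ G' Q'))) _ (by positivity) (fun G hG => ?_)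
    (fun G G' h u hu => ?_) (fun G hG => ?_)
  · obtain ⟨h1, h2, h3, h4, -⟩ := mem_filter.1 hG
    obtain ⟨htri, hU⟩ := mem_TF.1 h1
    rw [Fintype.mem_piFinset]
    intro x
    simp only [alw, mem_filter, mem_univ, true_and, decide_eq_true_eq]
    refine ⟨fun h => ⟨hU _ _ h.symm, fun h' => ?_⟩, fun h => ⟨hU _ _ h.symm, fun h' => ?_⟩,
      fun h => notri htri h2 h.1 h.2⟩
    · obtain ⟨q, hq, e⟩ := mem_NQ.1 h'
      exact notri htri (mem_nb.1 (mem_erase.1 (h3 hq)).2) h e.1
    · obtain ⟨q, hq, e⟩ := mem_NQ.1 h'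
      exact notri htri (mem_nb.1 (mem_erase.1 (h4 hq)).2) h e.1
  · ext x
    have := congrFun h x
    simp only [Prod.mk.injEq, decide_eq_decide] at this
    rw [mem_nb, mem_nb]
    rcases mem_insert.1 hu with rfl | hu
    · exact this.1
    · rw [mem_singleton.1 hu]
      exact this.2
  · obtain ⟨h1, h2, h3, h4, h5, h6, h7⟩ := mem_filter.1 hG
    obtain ⟨htri, hU⟩ := mem_TF.1 h1
    have hsub : ∀ P : Finset α, NQ (res {v, w} G) P ⊆ U := fun P x hx => by
      obtain ⟨q, -, e⟩ := mem_NQ.1 hx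
      exact hU _ _ e.1.symm
    have k1 : ∀ x ∈ NQ G Q, x ∉ ({v, w} : Finset α) → x ∈ NQ (res {v, w} G) Q := by
      intro x hx hx'
      obtain ⟨q, hq, e⟩ := mem_NQ.1 hx
      obtain ⟨a, b⟩ := mem_erase.1 (h3 hq)
      refine mem_NQ.2 ⟨q, hq, e, ?_, hx'⟩
      simp [a, (mem_nb.1 b).ne']
    have k2 : ∀ x ∈ NQ G Q', x ∉ ({v, w} : Finset α) → x ∈ NQ (res {v, w} G) Q' := by
      intro x hx hx'
      obtain ⟨q, hq, e⟩ := mem_NQ.1 hx
      obtain ⟨a, b⟩ := mem_erase.1 (h4 hq)
      refine mem_NQ.2 ⟨q, hq, e, ?_, hx'⟩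
      simp [a, (mem_nb.1 b).ne']
    have k : ∀ S T : Finset α, (∀ x ∈ S, x ∉ ({v, w} : Finset α) → x ∈ T) → S.card ≤ T.card + 2 := by
      intro S T h
      have : S ⊆ T ∪ {v, w} := fun x hx => by
        by_cases h' : x ∈ ({v, w} : Finset α)
        · exact mem_union_right _ h'
        · exact mem_union_left _ (h x hx h')
      exact (card_le_card this).trans ((card_union_le _ _).trans (Nat.add_le_add_left card_le_two _))
    have j1 := k _ _ k1
    have j2 := k _ _ k2
    have j3 := k (NQ G Q ∩ NQ G Q') (NQ (res {v, w} G) Q ∩ NQ (res {v, w} G) Q') fun x hx hx' =>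
      mem_inter.2 ⟨k1 x (mem_inter.1 hx).1 hx', k2 x (mem_inter.1 hx).2 hx'⟩
    exact card_pi_alw U _ _ (hsub _) (hsub _) (by omega) (by omega) (by omega)

theorem card_col (U : Finset α) :
    ((TF U).filter (fun G => G.Colorable 2)).card ≤ 2 ^ U.card * 2 ^ mx U.card := by
  have h : (TF U).filter (fun G => G.Colorable 2) ⊆ U.powerset.biUnion (fun A =>
      univ.filter (fun G : SimpleGraph α => ∀ x y, G.Adj x y →
        (x ∈ A ∧ y ∈ U \ A) ∨ (y ∈ A ∧ x ∈ U \ A))) := by
    intro G hG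
    obtain ⟨h1, ⟨c⟩⟩ := mem_filter.1 hG
    obtain ⟨-, hU⟩ := mem_TF.1 h1
    refine mem_biUnion.2 ⟨U.filter (fun x => c x = 0), mem_powerset.2 (filter_subset _ _),
      mem_filter.2 ⟨mem_univ _, fun x y e => ?_⟩⟩
    have hx := hU _ _ e
    have hy := hU _ _ e.symm
    have hc := c.valid e
    simp only [mem_filter, mem_sdiff, hx, hy, true_and]
    revert hc
    generalize c x = a
    generalize c y = b
    revert a b
    decide
  refine (card_le_card h).trans ((card_biUnion_le_card_mul _ _ (2 ^ mx U.card) fun A hA => ?_).trans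
    (by simp))
  refine le_trans (card_le_card_of_injOn (t := (A ×ˢ (U \ A)).powerset)
    (fun G => (A ×ˢ (U \ A)).filter (fun p => G.Adj p.1 p.2))
    (fun G _ => mem_coe.2 (mem_powerset.2 (filter_subset _ _))) (fun G hG G' hG' h => ?_)) ?_
  · simp only [coe_filter, mem_univ, true_and, Set.mem_ofPred_eq] at hG hG'
    have key : ∀ x y, x ∈ A ∧ y ∈ U \ A → (G.Adj x y ↔ G'.Adj x y) := by
      intro x y hxy
      have := congrArg (fun s => (x, y) ∈ s) h
      simpa [mem_filter, mem_product, hxy.1, hxy.2, mem_sdiff.1 hxy.2] using this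
    ext x y
    constructor
    · intro e
      rcases hG x y e with h' | h'
      · exact (key x y h').1 e
      · exact ((key y x h').1 e.symm).symm
    · intro e
      rcases hG' x y e with h' | h'
      · exact (key x y h').2 e
      · exact ((key y x h').2 e.symm).symm
  · rw [card_powerset, card_product]
    refine Nat.pow_le_pow_right two_pos (le_mx ?_)
    rw [← card_sdiff_add_card_eq_card (mem_powerset.1 hA)]
    nlinarith [four_mul_le_sq_add (A.card : ℤ) (U \ A).card]

theorem card_TF_crude (U : Finset α) : (TF U).card ≤ 2 ^ (U.card * U.card) := by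
  rw [← card_product, ← card_powerset]
  refine card_le_card_of_injOn (fun G => (U ×ˢ U).filter (fun p => G.Adj p.1 p.2))
    (fun G _ => mem_coe.2 (mem_powerset.2 (filter_subset _ _))) (fun G hG G' hG' h => ?_)
  obtain ⟨-, hU⟩ := mem_TF.1 hG
  obtain ⟨-, hU'⟩ := mem_TF.1 hG'
  have key : ∀ x y, x ∈ U → y ∈ U → (G.Adj x y ↔ G'.Adj x y) := by
    intro x y hx hy
    have := congrArg (fun s => (x, y) ∈ s) h
    simpa [mem_filter, mem_product, hx, hy] using this
  ext x y
  exact ⟨fun e => (key x y (hU _ _ e) (hU _ _ e.symm)).1 e,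
    fun e => (key x y (hU' _ _ e) (hU' _ _ e.symm)).2 e⟩

end Pool.Agent.Lib.MP_fd8555_co
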