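import Pool.Agent.Lib.MP_fd8555_co.EKR2

/-!
The Erdos-Kleitman-Rothschild theorem with an exponentially small error term.
-/

set_option autoImplicit false

namespace Pool.Agent.Lib.MP_fd8555_co

open Finset Classical Filter Topology

theorem mx_eq (k : ℕ) : 4 * mx k + k % 2 = k ^ 2 := by
  rw [mx]
  rcases Nat.even_or_odd' k with ⟨m, rfl | rfl⟩
  · rw [show (2 * m + 1) / 2 = m by omega, show 2 * m / 2 = m by omega,
      show 2 * m % 2 = 0 by omega]
    ring
  · rw [show (2 * m + 1 + 1) / 2 = m + 1 by omega, show (2 * m + 1) / 2 = m by omega,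
      show (2 * m + 1) % 2 = 1 by omega]
    ring

/-- comparison function. -/
noncomputable def gg (k : ℕ) : ℝ := 2 ^ k * 2 ^ mx k

/-- the exponentially small factor. -/
noncomputable def th (k : ℕ) : ℝ := (27 / 32) ^ (k / 50)

theorem gg_pos (k : ℕ) : 0 < gg k := by unfold gg; positivity

theorem th_pos (k : ℕ) : 0 < th k := by unfold th; positivity

theorem half_le_th {j k : ℕ} (h : k / 50 ≤ j) : (1 / 2 : ℝ) ^ j ≤ th k :=
  (pow_le_pow_of_le_one (by norm_num) (by norm_num) h).trans
    (pow_le_pow_left₀ (by norm_num) (by norm_num) _)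

theorem gg_le {a b c d : ℕ} (h : c + a + mx a + d ≤ b + mx b) :
    2 ^ c * gg a ≤ gg b * (1 / 2) ^ d := by
  rw [gg, gg, one_div, inv_pow, ← div_eq_mul_inv, le_div_iff₀ (by positivity), ← pow_add,
    ← pow_add, ← pow_add, ← pow_add]
  exact pow_le_pow_right₀ one_le_two (by omega)

/-- nonbipartite triangle-free graphs. -/
noncomputable def NB {α : Type} [Fintype α] (U : Finset α) : Finset (SimpleGraph α) :=
  (TF U).filter (fun G => ¬ G.Colorable 2)

theorem biU_le {β γ : Type} [DecidableEq γ] (s : Finset β) (f : β → Finset γ) (M : ℝ)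
    (h : ∀ b ∈ s, ((f b).card : ℝ) ≤ M) : ((s.biUnion f).card : ℝ) ≤ s.card * M := by
  have h1 : ((s.biUnion f).card : ℝ) ≤ ∑ b ∈ s, ((f b).card : ℝ) := by
    exact_mod_cast card_biUnion_le
  exact h1.trans ((sum_le_card_nsmul _ _ M h).trans (by rw [nsmul_eq_mul]))

theorem nb_step : ∃ M : ℝ, 0 < M ∧ ∀ (α : Type) [Fintype α] (U : Finset α) (K : ℝ), 0 ≤ K →
    200 ≤ U.card → (∀ U' : Finset α, U'.card < U.card → ((TF U').card : ℝ) ≤ K * gg U'.card) →
    ((NB U).card : ℝ) ≤ K * gg U.card * (M * U.card ^ 404 * th U.card) := by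
  obtain ⟨c0, hc0⟩ : ∃ c0 : ℕ, c0 = 10000 := ⟨_, rfl⟩
  refine ⟨201 + 2 ^ c0 + 14 * 202 ^ 2, by positivity, fun α _ U K hK hn ih => ?_⟩
  obtain ⟨j, hj⟩ : ∃ j, U.card = j + 200 := ⟨U.card - 200, by omega⟩
  set sQ := U.powerset.filter (fun Q => Q.card ≤ 201) with hsQ
  let fA : α → Finset (SimpleGraph α) := fun v => (TF U).filter (fun G => (nb G v).card ≤ 200)
  let fB : Finset α × Finset α → Finset (SimpleGraph α) := fun p =>
    (TF U).filter (fun G => NQ G p.1 = p.2)
  let fC : (α × α) × (Finset α × Finset α) → Finset (SimpleGraph α) := fun p =>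
    (TF U).filter (fun G => G.Adj p.1.1 p.1.2 ∧ p.2.1 ⊆ (nb G p.1.1).erase p.1.2 ∧
      p.2.2 ⊆ (nb G p.1.2).erase p.1.1 ∧
      49 * U.card ≤ 100 * (NQ G p.2.1).card ∧ 49 * U.card ≤ 100 * (NQ G p.2.2).card ∧
      4 * U.card ≤ 100 * (NQ G p.2.1 ∩ NQ G p.2.2).card)
  set sB := powersetCard 200 U ×ˢ U.powerset.filter (fun R => 100 * R.card ≤ 49 * U.card) with hsB
  set sC := U.offDiag ×ˢ (sQ ×ˢ sQ) with hsC
  have hcov : NB U ⊆ U.biUnion fA ∪ sB.biUnion fB ∪ sC.biUnion fC := by
    intro G hG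
    obtain ⟨hG, hnc⟩ := mem_filter.1 hG
    by_contra hno
    simp only [mem_union, mem_biUnion, not_or, not_exists, not_and] at hno
    obtain ⟨⟨a, b⟩, c⟩ := hno
    have hU := (mem_TF.1 hG).2
    refine hnc (structure_lemma hG (fun v hv => ?_) (fun Q hQ h => ?_)
      (fun v w e Q hQ Q' hQ' h1 h2 h3 h4 => ?_))
    · by_contra h
      exact a v hv (mem_filter.2 ⟨hG, not_lt.1 h⟩)
    · by_contra h'
      refine b (Q, NQ G Q) (mem_product.2 ⟨mem_powersetCard.2 ⟨hQ, h⟩, mem_filter.2
        ⟨mem_powerset.2 fun x hx => ?_, not_lt.1 h'⟩⟩) (mem_filter.2 ⟨hG, rfl⟩)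
      obtain ⟨q, -, e⟩ := mem_NQ.1 hx
      exact hU _ _ e.symm
    · by_contra h'
      refine c ((v, w), (Q, Q')) (mem_product.2 ⟨mem_offDiag.2 ⟨hU _ _ e, hU _ _ e.symm, e.ne⟩,
        mem_product.2 ⟨mem_filter.2 ⟨mem_powerset.2 ?_, h1⟩, mem_filter.2 ⟨mem_powerset.2 ?_, h2⟩⟩⟩)
        (mem_filter.2 ⟨hG, e, hQ, hQ', h3, h4, not_lt.1 h'⟩)
      · exact hQ.trans ((erase_subset _ _).trans (nb_sub hG v))
      · exact hQ'.trans ((erase_subset _ _).trans (nb_sub hG w))
  have m0 := mx_eq j
  have m1 := mx_eq (j + 198)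
  have m2 := mx_eq (j + 199)
  have m3 := mx_eq (j + 200)
  have hn1 : (1 : ℝ) ≤ U.card := by exact_mod_cast (by omega : 1 ≤ U.card)
  have hg := gg_pos U.card
  have ht := th_pos U.card
  have hA : ((U.biUnion fA).card : ℝ) ≤ K * gg U.card * (201 * U.card ^ 404 * th U.card) := by
    refine (biU_le U fA ((201 * U.card ^ 200 : ℕ) * (K * (gg U.card * th U.card)))
      fun v hv => (clsA U (by omega) v).trans ?_).trans ?_
    · have e : (U \ {v}).card = j + 199 := by
        rw [card_sdiff_of_subset (singleton_subset_iff.2 hv), card_singleton]; omega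
      gcongr
      refine (ih _ (by omega)).trans ?_
      gcongr
      have := gg_le (a := j + 199) (b := j + 200) (c := 0) (d := (j + 200) / 50) (by
        ring_nf at m2 m3 ⊢; omega)
      rw [e, hj]
      rw [pow_zero, one_mul] at this
      exact this.trans (mul_le_mul_of_nonneg_left (half_le_th le_rfl) (gg_pos _).le)
    · push_cast
      have : (U.card : ℝ) * U.card ^ 200 ≤ U.card ^ 404 := by
        rw [← pow_succ']; exact pow_le_pow_right₀ hn1 (by norm_num)
      calc (U.card : ℝ) * (201 * U.card ^ 200 * (K * (gg U.card * th U.card)))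
          = K * gg U.card * (201 * (U.card * U.card ^ 200) * th U.card) := by ring
        _ ≤ _ := by gcongr
  have hB : ((sB.biUnion fB).card : ℝ) ≤ K * gg U.card * (2 ^ c0 * U.card ^ 404 * th U.card) := by
    refine (biU_le sB fB (2 ^ (98 * U.card) * (K * gg j))
      fun p hp => (clsB U p.1 p.2).trans ?_).trans ?_
    · obtain ⟨h1, h2⟩ := mem_product.1 hp
      obtain ⟨h3, h4⟩ := mem_powersetCard.1 h1
      have h5 := (mem_filter.1 h2).2
      have e : (U \ p.1).card = j := by
        rw [card_sdiff_of_subset h3]; omega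
      push_cast
      refine mul_le_mul (pow_le_pow_right₀ one_le_two ?_) ?_ (by positivity) (by positivity)
      · rw [h4]; omega
      · exact (ih _ (by omega)).trans (by rw [e])
    · have h1 : sB.card ≤ U.card ^ 404 * 2 ^ U.card := by
        rw [hsB, card_product, card_powersetCard]
        exact Nat.mul_le_mul ((Nat.choose_le_pow _ _).trans (Nat.pow_le_pow_right (by omega)
          (by norm_num))) ((card_filter_le _ _).trans (by simp))
      have h2 : (sB.card : ℝ) ≤ U.card ^ 404 * 2 ^ U.card := by exact_mod_cast h1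
      have h3 : (2 : ℝ) ^ (99 * U.card) * gg j ≤ 2 ^ c0 * (gg U.card * th U.card) := by
        have h4 : (2 : ℝ) ^ (99 * U.card) * gg j * 2 ^ U.card ≤ 2 ^ c0 * gg U.card := by
          rw [gg, gg, ← pow_add, ← pow_add, ← pow_add, ← pow_add, ← pow_add]
          refine pow_le_pow_right₀ one_le_two ?_
          rw [hj]
          ring_nf at m0 m3 ⊢
          omega
        have h5 : (1 / 2 : ℝ) ^ U.card ≤ th U.card := half_le_th (by omega)
        calc (2 : ℝ) ^ (99 * U.card) * gg j
            = 2 ^ (99 * U.card) * gg j * 2 ^ U.card * (1 / 2) ^ U.card := by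
              rw [mul_assoc _ (2 ^ U.card), ← mul_pow]; norm_num
          _ ≤ 2 ^ c0 * gg U.card * th U.card := by gcongr
          _ = _ := by ring
      calc (sB.card : ℝ) * (2 ^ (98 * U.card) * (K * gg j))
          ≤ U.card ^ 404 * 2 ^ U.card * (2 ^ (98 * U.card) * (K * gg j)) := by
            have := gg_pos j
            gcongr
        _ = K * U.card ^ 404 * (2 ^ (99 * U.card) * gg j) := by
            rw [show 99 * U.card = U.card + 98 * U.card by ring, pow_add]; ring
        _ ≤ K * U.card ^ 404 * (2 ^ c0 * (gg U.card * th U.card)) := by gcongr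
        _ = _ := by ring
  have hC : ((sC.biUnion fC).card : ℝ) ≤
      K * gg U.card * (14 * 202 ^ 2 * U.card ^ 404 * th U.card) := by
    refine (biU_le sC fC (14 * th U.card * (K * gg U.card))
      fun p hp => (clsC U p.1.1 p.1.2 p.2.1 p.2.2).trans ?_).trans ?_
    · obtain ⟨h1, h2, h3⟩ := mem_offDiag.1 (mem_product.1 hp).1
      have e : (U \ {p.1.1, p.1.2}).card = j + 198 := by
        rw [card_sdiff_of_subset (by simp [insert_subset_iff, h1, h2]), card_pair h3]; omega
      have h4 := ih (U \ {p.1.1, p.1.2}) (by omega)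
      have h5 := gg_le (a := j + 198) (b := j + 200) (c := j + 200) (d := 0) (by
        ring_nf at m1 m3 ⊢; omega)
      rw [pow_zero, mul_one, ← hj] at h5
      rw [e] at h4
      calc 14 * 2 ^ U.card * (27 / 32 : ℝ) ^ (U.card / 50) * (TF (U \ {p.1.1, p.1.2})).card
          ≤ 14 * 2 ^ U.card * (27 / 32 : ℝ) ^ (U.card / 50) * (K * gg (j + 198)) := by gcongr
        _ = 14 * th U.card * (K * (2 ^ U.card * gg (j + 198))) := by rw [th]; ring
        _ ≤ _ := by gcongr
    · have h0 := small_sets U (by omega) 201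
      have h1 : sC.card ≤ 202 ^ 2 * U.card ^ 404 := by
        rw [hsC, card_product, card_product, offDiag_card]
        calc (U.card * U.card - U.card) * (sQ.card * sQ.card)
            ≤ (U.card * U.card) * ((202 * U.card ^ 201) * (202 * U.card ^ 201)) :=
              Nat.mul_le_mul (Nat.sub_le _ _) (Nat.mul_le_mul h0 h0)
          _ = _ := by ring
      have h2 : (sC.card : ℝ) ≤ 202 ^ 2 * U.card ^ 404 := by exact_mod_cast h1
      calc (sC.card : ℝ) * (14 * th U.card * (K * gg U.card))
          ≤ 202 ^ 2 * U.card ^ 404 * (14 * th U.card * (K * gg U.card)) := by gcongr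
        _ = _ := by ring
  have h1 : ((NB U).card : ℝ) ≤ (U.biUnion fA).card + (sB.biUnion fB).card +
      (sC.biUnion fC).card := by
    exact_mod_cast (card_le_card hcov).trans ((card_union_le _ _).trans
      (Nat.add_le_add_right (card_union_le _ _) _))
  calc ((NB U).card : ℝ) ≤ _ := h1
    _ ≤ _ := add_le_add (add_le_add hA hB) hC
    _ = _ := by ring

theorem poly_th (k : ℕ) : Tendsto (fun n : ℕ => (n : ℝ) ^ k * th n) atTop (𝓝 0) := by
  have h1 := (tendsto_pow_const_mul_const_pow_of_abs_lt_one k (r := 27 / 32)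
    (by rw [abs_of_pos] <;> norm_num)).comp (tendsto_add_atTop_nat 1)
  have h2 := (h1.comp (Nat.tendsto_div_const_atTop (n := 50) (by norm_num))).const_mul
    ((50 : ℝ) ^ k * (32 / 27))
  rw [mul_zero] at h2
  refine squeeze_zero (fun n => by have := th_pos n; positivity) (fun n => ?_) h2
  simp only [Function.comp, th]
  have h3 : (n : ℝ) ≤ 50 * ((n / 50 + 1 : ℕ) : ℝ) := by
    exact_mod_cast (by omega : n ≤ 50 * (n / 50 + 1))
  calc (n : ℝ) ^ k * (27 / 32) ^ (n / 50) ≤ (50 * ((n / 50 + 1 : ℕ) : ℝ)) ^ k * (27 / 32) ^ (n / 50) := by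
        gcongr
    _ = _ := by rw [mul_pow, pow_succ (27 / 32 : ℝ)]; ring

theorem ekr : ∃ M : ℝ, 0 < M ∧ ∀ (α : Type) [Fintype α] (U : Finset α), 200 ≤ U.card →
    ((NB U).card : ℝ) ≤ gg U.card * (M * U.card ^ 404 * th U.card) := by
  obtain ⟨M, hM, hstep⟩ := nb_step
  have h1 := (poly_th 404).const_mul M
  rw [mul_zero] at h1
  obtain ⟨n0, hn0⟩ := eventually_atTop.1 (h1.eventually (gt_mem_nhds (by norm_num : (0 : ℝ) < 1 / 2)))
  obtain ⟨n1, hn1⟩ : ∃ n1, n1 = n0 + 200 := ⟨_, rfl⟩
  obtain ⟨K0, hK0, hK1⟩ : ∃ K0 : ℝ, 0 < K0 ∧ K0 = 2 ^ (n1 * n1) := ⟨_, by positivity, rfl⟩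
  obtain ⟨K, hK⟩ : ∃ K : ℝ, K = K0 + 2 := ⟨_, rfl⟩
  have hKp : 0 < K := by linarith
  have key : ∀ (α : Type) [Fintype α] (k : ℕ) (U : Finset α), U.card = k →
      ((TF U).card : ℝ) ≤ K * gg U.card := by
    intro α _ k
    induction k using Nat.strong_induction_on with
    | _ k ih =>
      intro U hU
      have hg := gg_pos U.card
      by_cases hk : U.card < n1
      · have h2 : (TF U).card ≤ 2 ^ (n1 * n1) := (card_TF_crude U).trans
          (Nat.pow_le_pow_right two_pos (Nat.mul_le_mul hk.le hk.le))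
        have h3 : ((TF U).card : ℝ) ≤ K0 := by rw [hK1]; exact_mod_cast h2
        have h4 : 1 ≤ gg U.card := one_le_mul_of_one_le_of_one_le (one_le_pow₀ one_le_two)
          (one_le_pow₀ one_le_two)
        clear hK1 h2
        nlinarith
      · have h2 := hstep α U K (by positivity) (by omega) fun U' h => ih _ (hU ▸ h) U' rfl
        have h3 := hn0 U.card (by omega)
        have h4 : ((TF U).card : ℝ) = ((TF U).filter (fun G => G.Colorable 2)).card +
            (NB U).card := by
          exact_mod_cast (card_filter_add_card_filter_not _).symm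
        have h5 : (((TF U).filter (fun G => G.Colorable 2)).card : ℝ) ≤ gg U.card := by
          unfold gg
          exact_mod_cast card_col U
        have h6 : K * gg U.card * (M * U.card ^ 404 * th U.card) ≤ K * gg U.card * (1 / 2) := by
          gcongr
          rw [mul_assoc]
          exact h3.le
        have h7 : gg U.card ≤ K * gg U.card * (1 / 2) := by
          clear hK1 h6 h2 h3 h4 h5
          nlinarith
        linarith
  refine ⟨K * M, by positivity, fun α _ U hU => ?_⟩
  refine (hstep α U K (by positivity) hU fun U' _ => key α _ U' rfl).trans (le_of_eq ?_)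
  ring

end Pool.Agent.Lib.MP_fd8555_co
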