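import Pool.Agent.Lib.MP_fd8555_co.Count

/-!
Fourier bound for the number of subsets of a union of coordinate subspaces whose sum lies again in
the union.
-/

set_option autoImplicit false

namespace Pool.Agent.Lib.MP_fd8555_co

open Finset

/-- the sign character of `ZMod 2`. -/
def sg (a : ZMod 2) : ℝ := if a = 0 then 1 else -1

theorem z2cases : ∀ a : ZMod 2, a = 0 ∨ a = 1 := by decide

theorem sg_add (a b : ZMod 2) : sg (a + b) = sg a * sg b := by
  have h : (1 : ZMod 2) + 1 = 0 := by decide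
  rcases z2cases a with rfl | rfl <;> rcases z2cases b with rfl | rfl <;> simp [sg, h]

theorem neg_one_le_sg (a : ZMod 2) : -1 ≤ sg a := by
  unfold sg
  split_ifs <;> norm_num

variable {E : Type} [Fintype E] [DecidableEq E]

omit [DecidableEq E] in
theorem sg_sum {κ : Type} [DecidableEq κ] (H : E → ZMod 2) (T : Finset κ) (v : κ → E → ZMod 2) :
    sg (H ⬝ᵥ ∑ i ∈ T, v i) = ∏ i ∈ T, sg (H ⬝ᵥ v i) := by
  induction T using Finset.induction_on with
  | empty => simp [sg]
  | insert a T ha ih => rw [sum_insert ha, prod_insert ha, dotProduct_add, sg_add, ih]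

theorem mem_sup {D : Finset E} {x : E → ZMod 2} : x ∈ sup D ↔ ∀ e ∉ D, x e = 0 := by
  simp [sup]

theorem card_sup_eq (D : Finset E) : (sup D).card = 2 ^ D.card := by
  have : sup D = Fintype.piFinset (fun e => if e ∈ D then (univ : Finset (ZMod 2)) else {0}) := by
    ext x
    rw [mem_sup, Fintype.mem_piFinset]
    refine forall_congr' fun e => ?_
    split_ifs with h <;> simp [h]
  rw [this, Fintype.card_piFinset]
  simp only [apply_ite Finset.card, card_univ, ZMod.card, card_singleton]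
  rw [prod_ite_mem, univ_inter, prod_const]

theorem orth (D : Finset E) (x : E → ZMod 2) :
    ∑ H ∈ sup D, sg (H ⬝ᵥ x) = if x ∈ sup Dᶜ then 2 ^ D.card else 0 := by
  split_ifs with h
  · rw [sum_congr rfl (g := fun _ => (1 : ℝ))]
    · simp [card_sup_eq]
    · intro H hH
      have : H ⬝ᵥ x = 0 := by
        refine sum_eq_zero fun e _ => ?_
        by_cases he : e ∈ D
        · rw [mem_sup.1 h e (by simpa using he), mul_zero]
        · rw [mem_sup.1 hH e he, zero_mul]
      simp [this, sg]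
  · rw [mem_sup] at h
    push Not at h
    obtain ⟨e, he, hx⟩ := h
    have he' : e ∈ D := by simpa using he
    have h11 : (1 : ZMod 2) + 1 = 0 := by decide
    refine sum_involution (fun H _ => H + Pi.single e 1) (fun H _ => ?_) (fun H _ _ h => ?_)
      (fun H hH => ?_) (fun H _ => ?_)
    · rw [add_dotProduct, sg_add, single_dotProduct, z2 _ hx]
      simp [sg]
    · have := congrFun h e
      simp at this
    · rw [mem_sup] at hH ⊢
      intro f hf
      have : f ≠ e := fun h => hf (h ▸ he')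
      simp [hH f hf, this]
    · rw [add_assoc, ← Pi.single_add, h11]
      simp

theorem sum_two_le {κ : Type} [DecidableEq κ] (I : Finset κ) (f : κ → ℝ) :
    ∑ T ∈ I.powerset.filter (fun T => 2 ≤ T.card), ∏ i ∈ T, f i =
      ∏ i ∈ I, (1 + f i) - 1 - ∑ i ∈ I, f i := by
  rw [prod_one_add, ← sum_filter_add_sum_filter_not I.powerset (fun T => 2 ≤ T.card)]
  have h : I.powerset.filter (fun T => ¬ 2 ≤ T.card) = insert ∅ (I.image singleton) := by
    ext T
    simp only [mem_filter, mem_powerset, mem_insert, mem_image]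
    constructor
    · rintro ⟨h1, h2⟩
      have : T.card = 0 ∨ T.card = 1 := by omega
      rcases this with h0 | h0
      · exact Or.inl (card_eq_zero.1 h0)
      · obtain ⟨a, rfl⟩ := card_eq_one.1 h0
        exact Or.inr ⟨a, h1 (mem_singleton_self a), rfl⟩
    · rintro (rfl | ⟨a, ha, rfl⟩)
      · simp
      · simpa using ha
  rw [h, sum_insert (by simp), sum_image (fun a _ b _ h => singleton_injective h)]
  simp only [prod_empty, prod_singleton]
  ring

variable {ι : Type} [Fintype ι] [DecidableEq ι]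

/-- the Fourier transform of the disjoint union of the subspaces. -/
noncomputable def bet (𝒜 : Finset ι) (D : ι → Finset E) (H : E → ZMod 2) : ℝ :=
  ∑ A ∈ 𝒜, if H ∈ sup (D A)ᶜ then 2 ^ (D A).card else 0

/-- the disjoint union of the subspaces. -/
def idx (𝒜 : Finset ι) (D : ι → Finset E) : Finset (ι × (E → ZMod 2)) :=
  univ.filter (fun p => p.1 ∈ 𝒜 ∧ p.2 ∈ sup (D p.1))

theorem sum_idx (𝒜 : Finset ι) (D : ι → Finset E) (f : (E → ZMod 2) → ℝ) :
    ∑ p ∈ idx 𝒜 D, f p.2 = ∑ A ∈ 𝒜, ∑ x ∈ sup (D A), f x := by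
  rw [sum_finset_product (idx 𝒜 D) 𝒜 (fun A => sup (D A)) (by simp [idx])]

theorem bet_eq (𝒜 : Finset ι) (D : ι → Finset E) (H : E → ZMod 2) :
    ∑ p ∈ idx 𝒜 D, sg (H ⬝ᵥ p.2) = bet 𝒜 D H := by
  rw [sum_idx 𝒜 D (fun x => sg (H ⬝ᵥ x)), bet]
  refine sum_congr rfl fun A _ => ?_
  rw [← orth]
  exact sum_congr rfl fun x _ => by rw [dotProduct_comm]

theorem ind_eq (D : Finset E) (x : E → ZMod 2) :
    (if x ∈ sup D then (1 : ℝ) else 0) = (2 ^ Dᶜ.card : ℝ)⁻¹ * ∑ H ∈ sup Dᶜ, sg (H ⬝ᵥ x) := by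
  rw [orth, compl_compl]
  split_ifs
  · rw [inv_mul_cancel₀ (by positivity)]
  · simp

theorem fourier_bound (𝒜 : Finset ι) (D : ι → Finset E) (S : Finset (E → ZMod 2))
    (hS : ∀ x ∈ S, ∃ A ∈ 𝒜, x ∈ sup (D A)) {t : ℝ} (ht0 : 0 ≤ t) (ht1 : t ≤ 1) :
    ∑ T ∈ S.powerset.filter (fun T => 2 ≤ T.card ∧ ∑ x ∈ T, x ∈ S), t ^ T.card ≤
      ∑ A ∈ 𝒜, (2 ^ (D A)ᶜ.card : ℝ)⁻¹ * ∑ H ∈ sup (D A)ᶜ,
        (Real.exp (t * bet 𝒜 D H) - 1 - t * bet 𝒜 D H) := by
  rcases S.eq_empty_or_nonempty with rfl | ⟨x0, hx0⟩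
  · simp only [notMem_empty, and_false, filter_false, sum_empty]
    refine sum_nonneg fun A _ => mul_nonneg (by positivity) (sum_nonneg fun H _ => ?_)
    linarith [Real.add_one_le_exp (t * bet 𝒜 D H)]
  obtain ⟨A0, -, -⟩ := hS x0 hx0
  have : Nonempty ι := ⟨A0⟩
  choose! c hc using hS
  set I := idx 𝒜 D with hI
  let σ : (E → ZMod 2) → ι × (E → ZMod 2) := fun x => (c x, x)
  have hσ : Function.Injective σ := fun x y h => congrArg Prod.snd h
  let w : Finset (ι × (E → ZMod 2)) → ℝ := fun T =>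
    t ^ T.card * ∑ A ∈ 𝒜, if ∑ p ∈ T, p.2 ∈ sup (D A) then (1 : ℝ) else 0
  have hw : ∀ T, 0 ≤ w T := fun T =>
    mul_nonneg (by positivity) (sum_nonneg fun A _ => by split_ifs <;> norm_num)
  calc ∑ T ∈ S.powerset.filter (fun T => 2 ≤ T.card ∧ ∑ x ∈ T, x ∈ S), t ^ T.card
      ≤ ∑ T ∈ S.powerset.filter (fun T => 2 ≤ T.card ∧ ∑ x ∈ T, x ∈ S), w (T.image σ) := by
        refine sum_le_sum fun T hT => ?_
        obtain ⟨-, -, h2⟩ := mem_filter.1 hT
        simp only [w]
        rw [card_image_of_injective _ hσ, sum_image (fun a _ b _ h => hσ h)]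
        refine le_mul_of_one_le_right (by positivity) ?_
        have := single_le_sum (f := fun A => if ∑ x ∈ T, x ∈ sup (D A) then (1 : ℝ) else 0)
          (fun A _ => by split_ifs <;> norm_num) (hc _ h2).1
        simp only [if_pos (hc _ h2).2] at this
        exact this
    _ = ∑ T ∈ (S.powerset.filter (fun T => 2 ≤ T.card ∧ ∑ x ∈ T, x ∈ S)).image (image σ), w T :=
        (sum_image (fun a _ b _ h => image_injective hσ h)).symm
    _ ≤ ∑ T ∈ I.powerset.filter (fun T => 2 ≤ T.card), w T := by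
        refine sum_le_sum_of_subset_of_nonneg (fun T hT => ?_) fun T _ _ => hw T
        obtain ⟨T, hT', rfl⟩ := mem_image.1 hT
        obtain ⟨h1, h2, -⟩ := mem_filter.1 hT'
        refine mem_filter.2 ⟨mem_powerset.2 fun p hp => ?_, by
          rwa [card_image_of_injective _ hσ]⟩
        obtain ⟨x, hx, rfl⟩ := mem_image.1 hp
        exact mem_filter.2 ⟨mem_univ _, hc x (mem_powerset.1 h1 hx)⟩
    _ = ∑ A ∈ 𝒜, (2 ^ (D A)ᶜ.card : ℝ)⁻¹ * ∑ H ∈ sup (D A)ᶜ,
          ∑ T ∈ I.powerset.filter (fun T => 2 ≤ T.card), ∏ p ∈ T, t * sg (H ⬝ᵥ p.2) := by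
        simp only [w, mul_sum]
        rw [sum_comm]
        refine sum_congr rfl fun A _ => ?_
        rw [sum_comm]
        refine sum_congr rfl fun T _ => ?_
        rw [ind_eq, mul_sum, mul_sum]
        refine sum_congr rfl fun H _ => ?_
        rw [sg_sum, prod_mul_distrib, prod_const]
        ring
    _ ≤ _ := by
        refine sum_le_sum fun A _ => mul_le_mul_of_nonneg_left (sum_le_sum fun H _ => ?_)
          (by positivity)
        rw [sum_two_le, ← mul_sum, bet_eq]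
        have : ∏ p ∈ I, (1 + t * sg (H ⬝ᵥ p.2)) ≤ Real.exp (t * bet 𝒜 D H) := by
          rw [← bet_eq, mul_sum, Real.exp_sum]
          refine prod_le_prod (fun p _ => ?_) (fun p _ => ?_)
          · nlinarith [neg_one_le_sg (H ⬝ᵥ p.2)]
          · linarith [Real.add_one_le_exp (t * sg (H ⬝ᵥ p.2))]
        linarith

theorem second_moment (𝒜 : Finset ι) (D : ι → Finset E) (D0 : Finset E) :
    (2 ^ D0ᶜ.card : ℝ)⁻¹ * ∑ H ∈ sup D0ᶜ, bet 𝒜 D H ^ 2 =
      ∑ A ∈ 𝒜, ∑ B ∈ 𝒜, ((prs (D A) (D B) D0).card : ℝ) := by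
  have h1 : ∀ H, bet 𝒜 D H ^ 2 = ∑ A ∈ 𝒜, ∑ B ∈ 𝒜, ∑ x ∈ sup (D A), ∑ y ∈ sup (D B),
      sg (H ⬝ᵥ (x + y)) := by
    intro H
    rw [← bet_eq, sum_idx 𝒜 D (fun x => sg (H ⬝ᵥ x)), sq, sum_mul_sum]
    refine sum_congr rfl fun A _ => sum_congr rfl fun B _ => ?_
    rw [sum_mul_sum]
    simp only [dotProduct_add, sg_add]
  simp only [h1]
  rw [sum_comm, mul_sum]
  refine sum_congr rfl fun A _ => ?_
  rw [sum_comm, mul_sum]
  refine sum_congr rfl fun B _ => ?_
  have h2 : ((prs (D A) (D B) D0).card : ℝ) = ∑ x ∈ sup (D A), ∑ y ∈ sup (D B),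
      if x + y ∈ sup D0 then (1 : ℝ) else 0 := by
    rw [← sum_product', sum_boole]
    congr 2
    ext p
    simp [prs, and_assoc]
  rw [h2, sum_comm, mul_sum]
  refine sum_congr rfl fun x _ => ?_
  rw [sum_comm, mul_sum]
  refine sum_congr rfl fun y _ => ?_
  rw [ind_eq]

end Pool.Agent.Lib.MP_fd8555_co
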