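import Mathlib

/-!
Independent sets in triangle-free graphs of bounded degree, and in Cayley graphs of elementary
abelian 2-groups with few triangles.
-/

set_option autoImplicit false

namespace Pool.Agent.Lib.MP_fd8555_co

open Finset

theorem two_sum_card {α : Type} [DecidableEq α] (X : Finset α) :
    2 * ∑ Y ∈ X.powerset, Y.card = X.card * 2 ^ X.card := by
  have h : ∑ Y ∈ X.powerset, Y.card = ∑ Y ∈ X.powerset, (X \ Y).card :=
    sum_bij' (fun Y _ => X \ Y) (fun Y _ => X \ Y) (fun _ _ => mem_powerset.2 sdiff_subset)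
      (fun _ _ => mem_powerset.2 sdiff_subset)
      (fun Y hY => Finset.sdiff_sdiff_eq_self (mem_powerset.1 hY))
      (fun Y hY => Finset.sdiff_sdiff_eq_self (mem_powerset.1 hY))
      (fun Y hY => by rw [Finset.sdiff_sdiff_eq_self (mem_powerset.1 hY)])
  rw [two_mul]
  nth_rewrite 2 [h]
  rw [← sum_add_distrib, ← card_powerset, mul_comm, ← smul_eq_mul, ← sum_const]
  exact sum_congr rfl (fun Y hY => by
    rw [add_comm, card_sdiff_add_card_eq_card (mem_powerset.1 hY)])

theorem num_ineq (t x : ℕ) : t * (2 ^ x + 1) ≤ 4 * 2 ^ t + 2 * (x * 2 ^ x) := by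
  have h1 : 1 ≤ 2 ^ x := Nat.one_le_two_pow
  rcases le_or_gt t x with h | h
  · nlinarith [Nat.zero_le (2 ^ t)]
  · obtain ⟨y, rfl⟩ : ∃ y, t = x + y := ⟨t - x, by omega⟩
    have h2 : y ≤ 2 ^ y := Nat.lt_two_pow_self.le
    rw [pow_add]
    nlinarith [Nat.mul_le_mul h1 (le_refl x), Nat.mul_le_mul h1 (le_refl y),
      Nat.mul_le_mul (le_refl (2 ^ x)) h2]

section
variable {α : Type} [Fintype α] [DecidableEq α] (r : α → α → Prop) [DecidableRel r]

/-- independent sets. -/
def ind : Finset (Finset α) := univ.filter (fun W => ∀ x ∈ W, ∀ y ∈ W, ¬ r x y)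

theorem mem_ind {W : Finset α} : W ∈ ind r ↔ ∀ x ∈ W, ∀ y ∈ W, ¬ r x y := by simp [ind]

theorem local_bound (hs : ∀ x y, r x y → r y x) (hi : ∀ x, ¬ r x x)
    (ht : ∀ x y z, r x y → r x z → ¬ r y z) (t : ℕ) (v : α) :
    t * (ind r).card ≤ 4 * ∑ W ∈ ind r,
      ((if v ∈ W then 2 ^ t else 0) + (W.filter (r v)).card) := by
  set f : Finset α → Finset α := fun W => W.filter (fun x => x ≠ v ∧ ¬ r v x) with hf
  rw [card_eq_sum_ones, mul_sum, mul_sum, ← sum_fiberwise_of_maps_to (s := ind r) (t := (ind r).image f)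
    (g := f) (fun W hW => mem_image_of_mem f hW), ← sum_fiberwise_of_maps_to (s := ind r)
    (t := (ind r).image f) (g := f) (fun W hW => mem_image_of_mem f hW)]
  refine sum_le_sum (fun S hS => ?_)
  obtain ⟨W0, hW0, rfl⟩ := mem_image.1 hS
  set S := f W0 with hSd
  have hS1 : ∀ x ∈ S, x ≠ v ∧ ¬ r v x := fun x hx => (mem_filter.1 hx).2
  have hS2 : ∀ x ∈ S, ∀ y ∈ S, ¬ r x y := fun x hx y hy =>
    (mem_ind r).1 hW0 x (mem_filter.1 hx).1 y (mem_filter.1 hy).1
  set X := univ.filter (fun x => r v x ∧ ∀ y ∈ S, ¬ r x y) with hX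
  have hX1 : ∀ x ∈ X, r v x ∧ ∀ y ∈ S, ¬ r x y := fun x hx => (mem_filter.1 hx).2
  have key : (ind r).filter (fun W => f W = S) =
      insert (insert v S) (X.powerset.image (fun Y => S ∪ Y)) := by
    ext W
    simp only [mem_filter, mem_insert, mem_image, mem_powerset, mem_ind]
    constructor
    · rintro ⟨h1, h2⟩
      have h3 : ∀ x, x ∈ S ↔ x ∈ W ∧ x ≠ v ∧ ¬ r v x := fun x => by rw [← h2, hf, mem_filter]
      by_cases hv : v ∈ W
      · left
        ext x
        rw [mem_insert, h3]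
        constructor
        · intro hx
          by_cases e : x = v
          · exact Or.inl e
          · exact Or.inr ⟨hx, e, h1 v hv x hx⟩
        · rintro (rfl | h)
          · exact hv
          · exact h.1
      · right
        refine ⟨W.filter (r v), fun x hx => ?_, ?_⟩
        · rw [mem_filter] at hx
          exact mem_filter.2 ⟨mem_univ _, hx.2, fun y hy => h1 x hx.1 y ((h3 y).1 hy).1⟩
        · ext x
          rw [mem_union, h3, mem_filter]
          constructor
          · rintro (h | h)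
            · exact h.1
            · exact h.1
          · intro hx
            by_cases e : r v x
            · exact Or.inr ⟨hx, e⟩
            · exact Or.inl ⟨hx, fun h => hv (h ▸ hx), e⟩
    · rintro (rfl | ⟨Y, hY, rfl⟩)
      · refine ⟨fun x hx y hy => ?_, ?_⟩
        · rcases mem_insert.1 hx with rfl | hx <;> rcases mem_insert.1 hy with rfl | hy
          · exact hi _
          · exact (hS1 y hy).2
          · exact fun h => (hS1 x hx).2 (hs _ _ h)
          · exact hS2 x hx y hy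
        · ext x
          simp only [hf, mem_filter, mem_insert]
          exact ⟨fun h => h.1.resolve_left h.2.1, fun h => ⟨Or.inr h, hS1 x h⟩⟩
      · refine ⟨fun x hx y hy => ?_, ?_⟩
        · rcases mem_union.1 hx with hx | hx <;> rcases mem_union.1 hy with hy | hy
          · exact hS2 x hx y hy
          · exact fun h => (hX1 y (hY hy)).2 x hx (hs _ _ h)
          · exact (hX1 x (hY hx)).2 y hy
          · exact ht v x y (hX1 x (hY hx)).1 (hX1 y (hY hy)).1
        · ext x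
          simp only [hf, mem_filter, mem_union]
          exact ⟨fun h => h.1.resolve_right (fun h' => h.2.2 (hX1 x (hY h')).1),
            fun h => ⟨Or.inl h, hS1 x h⟩⟩
  have hv : ∀ Y ⊆ X, v ∉ S ∪ Y := fun Y hY h => by
    rcases mem_union.1 h with h | h
    · exact (hS1 v h).1 rfl
    · exact hi v (hX1 v (hY h)).1
  have hfil : ∀ Y ⊆ X, (S ∪ Y).filter (r v) = Y := fun Y hY => by
    ext x
    simp only [mem_filter, mem_union]
    exact ⟨fun h => h.1.resolve_left (fun h' => (hS1 x h').2 h.2),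
      fun h => ⟨Or.inr h, (hX1 x (hY h)).1⟩⟩
  have hinj : ∀ Y ∈ X.powerset, ∀ Y' ∈ X.powerset, S ∪ Y = S ∪ Y' → Y = Y' := fun Y hY Y' hY' e => by
    rw [← hfil Y (mem_powerset.1 hY), e, hfil Y' (mem_powerset.1 hY')]
  have hnot : insert v S ∉ X.powerset.image (fun Y => S ∪ Y) := fun h => by
    obtain ⟨Y, hY, e⟩ := mem_image.1 h
    exact hv Y (mem_powerset.1 hY) (e ▸ mem_insert_self v S)
  rw [key, sum_insert hnot, sum_insert hnot, sum_image hinj, sum_image hinj,
    if_pos (mem_insert_self v S)]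
  have e2 : ∑ Y ∈ X.powerset, 4 * ((if v ∈ S ∪ Y then 2 ^ t else 0) + ((S ∪ Y).filter (r v)).card)
      = 2 * (X.card * 2 ^ X.card) := by
    rw [← two_sum_card, ← mul_assoc, mul_sum, show 2 * 2 = 4 from rfl]
    exact sum_congr rfl (fun Y hY => by
      rw [if_neg (hv Y (mem_powerset.1 hY)), hfil Y (mem_powerset.1 hY), zero_add])
  rw [e2, sum_const, card_powerset, smul_eq_mul]
  have := num_ineq t X.card
  nlinarith [Nat.zero_le (((insert v S).filter (r v)).card)]

theorem exists_indep (hs : ∀ x y, r x y → r y x) (hi : ∀ x, ¬ r x x)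
    (ht : ∀ x y z, r x y → r x z → ¬ r y z) (t : ℕ)
    (hd : ∀ x, (univ.filter (r x)).card ≤ 2 ^ t) :
    ∃ W ∈ ind r, Fintype.card α * t ≤ 8 * 2 ^ t * W.card := by
  apply exists_le_of_sum_le (s := ind r) ⟨∅, by simp [ind]⟩
  have h1 := sum_le_sum (fun v (_ : v ∈ (univ : Finset α)) => local_bound r hs hi ht t v)
  rw [sum_const, card_univ, smul_eq_mul, ← mul_sum, sum_comm] at h1
  rw [sum_const, smul_eq_mul, mul_comm, mul_assoc]
  refine h1.trans ?_
  rw [mul_sum]
  refine sum_le_sum (fun W _ => ?_)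
  have h2 : ∑ v, (W.filter (r v)).card ≤ W.card * 2 ^ t := by
    simp only [card_filter]
    rw [sum_comm, ← smul_eq_mul, ← sum_const]
    refine sum_le_sum (fun w _ => le_trans (le_of_eq ?_) (hd w))
    rw [card_filter]
    exact sum_congr rfl (fun v _ => if_congr ⟨hs _ _, hs _ _⟩ rfl rfl)
  rw [sum_add_distrib, sum_ite_mem, univ_inter, sum_const, smul_eq_mul]
  nlinarith

end

variable {E : Type} [Fintype E] [DecidableEq E]

theorem card_ker_mul {V W : Type} [AddCommGroup V] [Fintype V] [AddCommGroup W] [Fintype W]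
    [DecidableEq W] (f : V →+ W) (hf : Function.Surjective f) :
    (univ.filter (fun a => f a = 0)).card * Fintype.card W = Fintype.card V := by
  rw [← card_univ (α := V), card_eq_sum_card_fiberwise (s := univ) (f := f) (t := univ)
    (fun _ _ => mem_univ _), mul_comm, ← smul_eq_mul, ← card_univ, ← sum_const]
  exact sum_congr rfl (fun w _ =>
    AddMonoidHom.card_fiber_eq_of_mem_range f ⟨0, map_zero f⟩ (hf w))

theorem card_ker_ge {V W : Type} [AddCommGroup V] [Fintype V] [AddCommGroup W] [Fintype W]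
    [DecidableEq W] (f : V →+ W) :
    Fintype.card V ≤ (univ.filter (fun a => f a = 0)).card * Fintype.card W := by
  rw [← card_univ (α := V), card_eq_sum_card_fiberwise (f := f) (t := univ) (fun _ _ => mem_univ _),
    mul_comm, ← smul_eq_mul, ← card_univ, ← sum_const]
  refine sum_le_sum (fun w _ => ?_)
  by_cases hw : w ∈ Set.range f
  · exact (AddMonoidHom.card_fiber_eq_of_mem_range f hw ⟨0, map_zero f⟩).le
  · rw [filter_eq_empty_iff.2 (fun a _ h => hw ⟨a, h⟩)]
    exact Nat.zero_le _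

/-- the dot product with `x`. -/
def dot (x : E → ZMod 2) : (E → ZMod 2) →+ ZMod 2 where
  toFun a := a ⬝ᵥ x
  map_zero' := zero_dotProduct x
  map_add' a b := add_dotProduct a b x

theorem z2 : ∀ c : ZMod 2, c ≠ 0 → c = 1 := by decide

theorem dot_one {x : E → ZMod 2} (hx : x ≠ 0) :
    (univ.filter (fun a : E → ZMod 2 => a ⬝ᵥ x = 0)).card * 2 = Fintype.card (E → ZMod 2) := by
  obtain ⟨e, he⟩ := Function.ne_iff.1 hx
  refine card_ker_mul (dot x) (fun c => ⟨Pi.single e c, ?_⟩)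
  simp [dot, z2 _ he]

theorem dot_two {x y : E → ZMod 2} (hx : x ≠ 0) (hy : y ≠ 0) (hxy : x + y ≠ 0) :
    (univ.filter (fun a : E → ZMod 2 => a ⬝ᵥ x = 0 ∧ a ⬝ᵥ y = 0)).card * 4 =
      Fintype.card (E → ZMod 2) := by
  obtain ⟨e1, h1⟩ := Function.ne_iff.1 hx
  obtain ⟨e2, h2⟩ := Function.ne_iff.1 hy
  obtain ⟨e3, h3⟩ := Function.ne_iff.1 hxy
  have key : ∀ a b c d e f : ZMod 2, a ≠ 0 → d ≠ 0 → e + f ≠ 0 → ∀ p q : ZMod 2,
      ∃ i j k : ZMod 2, i * a + j * c + k * e = p ∧ i * b + j * d + k * f = q := by decide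
  have := card_ker_mul ((dot x).prod (dot y)) (fun c => by
    obtain ⟨i, j, k, h4, h5⟩ := key _ (y e1) (x e2) _ _ _ h1 h2 h3 c.1 c.2
    refine ⟨Pi.single e1 i + Pi.single e2 j + Pi.single e3 k, Prod.ext ?_ ?_⟩
    · simpa [dot] using h4
    · simpa [dot] using h5)
  simpa [dot] using this

theorem card_pi (s : ℕ) (P : (E → ZMod 2) → Prop) [DecidablePred P] :
    (univ.filter (fun a : Fin s → E → ZMod 2 => ∀ i, P (a i))).card = (univ.filter P).card ^ s := by
  rw [← Fintype.card_piFinset_const]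
  congr 1
  ext a
  simp

theorem cayley (S : Finset (E → ZMod 2)) (h0 : (0 : E → ZMod 2) ∉ S) (s t : ℕ)
    (h1 : 2 * S.card ≤ 2 ^ t * 2 ^ s)
    (h2 : 4 * ((S ×ˢ S).filter (fun p => p.1 + p.2 ∈ S)).card ≤ 4 ^ s) :
    ∃ W : Finset (E → ZMod 2), (∀ x ∈ W, ∀ y ∈ W, x + y ∉ S) ∧
      2 ^ Fintype.card E * t ≤ 8 * 2 ^ t * 2 ^ s * W.card := by
  set T := (S ×ˢ S).filter (fun p => p.1 + p.2 ∈ S) with hT
  set Q := Fintype.card (E → ZMod 2) with hQ
  have e1 : (∑ a : Fin s → E → ZMod 2, (S.filter (fun x => ∀ i, a i ⬝ᵥ x = 0)).card) * 2 ^ s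
      = S.card * Q ^ s := by
    simp only [card_filter]
    rw [sum_comm, sum_mul, ← smul_eq_mul, ← sum_const]
    refine sum_congr rfl (fun x hx => ?_)
    rw [← card_filter, card_pi s (fun b => b ⬝ᵥ x = 0), ← mul_pow,
      dot_one (fun h => h0 (h ▸ hx))]
  have e2 : (∑ a : Fin s → E → ZMod 2,
      (T.filter (fun p => ∀ i, a i ⬝ᵥ p.1 = 0 ∧ a i ⬝ᵥ p.2 = 0)).card) * 4 ^ s = T.card * Q ^ s := by
    simp only [card_filter]
    rw [sum_comm, sum_mul, ← smul_eq_mul, ← sum_const]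
    refine sum_congr rfl (fun p hp => ?_)
    have hp1 := mem_filter.1 hp
    have hp2 := mem_product.1 hp1.1
    rw [← card_filter, card_pi s (fun b => b ⬝ᵥ p.1 = 0 ∧ b ⬝ᵥ p.2 = 0), ← mul_pow,
      dot_two (fun h => h0 (h ▸ hp2.1)) (fun h => h0 (h ▸ hp2.2)) (fun h => h0 (h ▸ hp1.2))]
  obtain ⟨a, -, ha⟩ : ∃ a ∈ (univ : Finset (Fin s → E → ZMod 2)),
      4 * (S.filter (fun x => ∀ i, a i ⬝ᵥ x = 0)).card + 4 * 2 ^ t *
        (T.filter (fun p => ∀ i, a i ⬝ᵥ p.1 = 0 ∧ a i ⬝ᵥ p.2 = 0)).card ≤ 3 * 2 ^ t := by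
    apply exists_le_of_sum_le univ_nonempty
    rw [sum_add_distrib, ← mul_sum, ← mul_sum, sum_const, card_univ, Fintype.card_fun,
      Fintype.card_fin, smul_eq_mul, ← hQ]
    have p2 : 0 < 2 ^ s := by positivity
    have p4 : 0 < 4 ^ s := by positivity
    have a1 : 2 * ∑ a : Fin s → E → ZMod 2, (S.filter (fun x => ∀ i, a i ⬝ᵥ x = 0)).card
        ≤ 2 ^ t * Q ^ s := by
      refine Nat.le_of_mul_le_mul_right ?_ p2
      rw [mul_assoc, e1]
      nlinarith [Nat.mul_le_mul_right (Q ^ s) h1]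
    have a2 : 4 * ∑ a : Fin s → E → ZMod 2,
        (T.filter (fun p => ∀ i, a i ⬝ᵥ p.1 = 0 ∧ a i ⬝ᵥ p.2 = 0)).card ≤ Q ^ s := by
      refine Nat.le_of_mul_le_mul_right ?_ p4
      rw [mul_assoc, e2]
      nlinarith [Nat.mul_le_mul_right (Q ^ s) h2]
    nlinarith [Nat.mul_le_mul_left (2 ^ t) a2]
  have p : 0 < 2 ^ t := by positivity
  have hT0 : T.filter (fun p => ∀ i, a i ⬝ᵥ p.1 = 0 ∧ a i ⬝ᵥ p.2 = 0) = ∅ := by
    rw [← card_eq_zero]
    by_contra h
    nlinarith [Nat.one_le_iff_ne_zero.2 h]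
  have sq : ∀ x : E → ZMod 2, x + x = 0 := fun x => by
    funext e
    exact CharTwo.add_self_eq_zero _
  obtain ⟨W, hW, hc⟩ := exists_indep (α := {x : E → ZMod 2 // ∀ i, a i ⬝ᵥ x = 0})
    (fun x y => x.1 + y.1 ∈ S) (fun x y h => by rwa [add_comm]) (fun x h => h0 (sq x.1 ▸ h))
    (fun x y z hy hz hyz => by
      refine filter_eq_empty_iff.1 hT0 (x := (x.1 + y.1, x.1 + z.1))
        (mem_filter.2 ⟨mem_product.2 ⟨hy, hz⟩, ?_⟩) (fun i => ?_)
      · rwa [add_add_add_comm, sq, zero_add]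
      · simp [dotProduct_add, x.2 i, y.2 i, z.2 i]) t
    (fun x => by
      refine le_trans (card_le_card_of_injOn (t := S.filter (fun x => ∀ i, a i ⬝ᵥ x = 0))
        (fun y => x.1 + y.1) (fun y hy => ?_) (fun y _ z _ h => Subtype.ext (add_left_cancel h)))
        (by omega)
      simp only [coe_filter, mem_univ, true_and, Set.mem_ofPred_eq] at hy ⊢
      exact ⟨hy, fun i => by simp [dotProduct_add, x.2 i, y.2 i]⟩)
  refine ⟨W.map (Function.Embedding.subtype _), fun x hx y hy => ?_, ?_⟩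
  · obtain ⟨x', hx', rfl⟩ := mem_map.1 hx
    obtain ⟨y', hy', rfl⟩ := mem_map.1 hy
    exact (mem_ind _).1 hW x' hx' y' hy'
  · let f : (E → ZMod 2) →+ (Fin s → ZMod 2) :=
      { toFun := fun x i => a i ⬝ᵥ x
        map_zero' := by funext i; simp
        map_add' := fun x y => by funext i; simp [dotProduct_add] }
    have h3 := card_ker_ge f
    have h4 : (univ.filter (fun x => f x = 0)).card =
        Fintype.card {x : E → ZMod 2 // ∀ i, a i ⬝ᵥ x = 0} := by
      rw [Fintype.card_subtype]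
      congr 1
      ext x
      simp [f, funext_iff]
    rw [h4, Fintype.card_fun, Fintype.card_fun, ZMod.card, Fintype.card_fin] at h3
    rw [card_map]
    nlinarith [Nat.mul_le_mul_right t h3, Nat.mul_le_mul_right (2 ^ s) hc]

end Pool.Agent.Lib.MP_fd8555_co
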