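import Pool.Agent.Lib.MP_fd8555_co.Indep

/-!
Linear alteration: a random subspace whose forbidden vectors have no odd dependency can be cut by
one more hyperplane that avoids all of them.
-/

set_option autoImplicit false

namespace Pool.Agent.Lib.MP_fd8555_co

open Finset

section

variable {V W : Type} [AddCommGroup V] [Module (ZMod 2) V] [AddCommGroup W] [Module (ZMod 2) W]

theorem exists_map_of_indep {B : Set V} (hB : LinearIndependent (ZMod 2) ((↑) : B → V))
    (g : B → W) : ∃ φ : V →ₗ[ZMod 2] W, ∀ b : B, φ b = g b := by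
  obtain ⟨φ, hφ⟩ := LinearMap.exists_extend
    ((Finsupp.linearCombination (ZMod 2) g).comp hB.repr)
  refine ⟨φ, fun b => ?_⟩
  have h1 := LinearMap.congr_fun hφ ⟨b, Submodule.subset_span ⟨b, rfl⟩⟩
  simp only [LinearMap.comp_apply, Submodule.subtype_apply] at h1
  rw [h1, hB.repr_eq_single b _ rfl]
  simp

theorem exists_subset_sum [DecidableEq V] {B : Finset V} {y : V}
    (hy : y ∈ Submodule.span (ZMod 2) (B : Set V)) : ∃ T ⊆ B, ∑ x ∈ T, x = y := by
  obtain ⟨c, -, hc⟩ := Submodule.mem_span_finset.1 hy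
  refine ⟨B.filter (fun x => c x ≠ 0), filter_subset _ _, ?_⟩
  rw [← hc, sum_filter]
  refine sum_congr rfl fun x _ => ?_
  split_ifs with h
  · rw [z2 _ h, one_smul]
  · rw [not_not.1 h, zero_smul]

open Classical in
theorem card_vanish [Fintype V] [Fintype W] [Fintype (V →ₗ[ZMod 2] W)] {T : Finset V}
    (hT : LinearIndependent (ZMod 2) ((↑) : ↥(T : Set V) → V)) :
    (univ.filter (fun φ : V →ₗ[ZMod 2] W => ∀ x ∈ T, φ x = 0)).card * Fintype.card W ^ T.card =
      Fintype.card (V →ₗ[ZMod 2] W) := by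
  let ev : (V →ₗ[ZMod 2] W) →+ (↥(T : Set V) → W) :=
    { toFun := fun φ b => φ b
      map_zero' := rfl
      map_add' := fun _ _ => rfl }
  have hs : Function.Surjective ev := fun g => by
    obtain ⟨φ, hφ⟩ := exists_map_of_indep hT g
    exact ⟨φ, funext hφ⟩
  have h := card_ker_mul ev hs
  rw [← h, Fintype.card_fun]
  congr 2
  · ext φ
    simp only [mem_filter, mem_univ, true_and, funext_iff]
    exact ⟨fun h b => h b b.2, fun h x hx => h ⟨x, hx⟩⟩
  · simp

end

open Classical in
theorem lin_alt {V : Type} [AddCommGroup V] [Module (ZMod 2) V] [Fintype V]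
    (S X : Finset V) (hS : (0 : V) ∉ S) (hX : (0 : V) ∉ X) (s : ℕ)
    (h : ∑ T ∈ S.powerset.filter (fun T => 2 ≤ T.card ∧ ∑ x ∈ T, x ∈ S), ((2 ^ s : ℝ)⁻¹) ^ T.card
      + X.card * (2 ^ s : ℝ)⁻¹ < 1) :
    ∃ C : Submodule (ZMod 2) V, (∀ x ∈ C, x ∉ S ∧ x ∉ X) ∧
      Fintype.card V ≤ 2 ^ (s + 1) * (univ.filter (fun x => x ∈ C)).card := by
  let W := Fin s → ZMod 2
  have hW : Fintype.card W = 2 ^ s := by simp [W]
  have : Finite (V →ₗ[ZMod 2] W) := DFunLike.finite _
  let _ : Fintype (V →ₗ[ZMod 2] W) := Fintype.ofFinite _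
  set Q := Fintype.card (V →ₗ[ZMod 2] W) with hQ
  have hQpos : (0 : ℝ) < Q := by exact_mod_cast Fintype.card_pos
  let van : Finset V → Finset (V →ₗ[ZMod 2] W) := fun T => univ.filter (fun φ => ∀ x ∈ T, φ x = 0)
  have hvan : ∀ T : Finset V, LinearIndependent (ZMod 2) ((↑) : ↥(T : Set V) → V) →
      ((van T).card : ℝ) = Q * ((2 ^ s : ℝ)⁻¹) ^ T.card := by
    intro T hT
    have h1 := card_vanish (W := W) hT
    rw [hW] at h1
    have h1' : (van T).card * (2 ^ s) ^ T.card = Q := by
      rw [hQ, ← h1]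
      congr 2
      ext φ
      simp only [van, mem_filter]
    have h2 : ((van T).card : ℝ) * (2 ^ s) ^ T.card = Q := by exact_mod_cast h1'
    rw [← h2, mul_assoc, ← mul_pow, mul_inv_cancel₀ (by positivity), one_pow, mul_one]
  set P := S.powerset.filter (fun T => 2 ≤ T.card ∧ ∑ x ∈ T, x ∈ S) with hP
  set P' := P.filter (fun T : Finset V => LinearIndependent (ZMod 2) ((↑) : ↥(T : Set V) → V)) with hP'
  have hbad : ((P'.biUnion van ∪ X.biUnion (fun x => van {x})).card : ℝ) < Q := by
    have e1 : ((P'.biUnion van).card : ℝ) ≤ Q * ∑ T ∈ P, ((2 ^ s : ℝ)⁻¹) ^ T.card := by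
      calc ((P'.biUnion van).card : ℝ) ≤ ∑ T ∈ P', ((van T).card : ℝ) := by
            exact_mod_cast card_biUnion_le
        _ = ∑ T ∈ P', Q * ((2 ^ s : ℝ)⁻¹) ^ T.card :=
            sum_congr rfl fun T hT => hvan T (mem_filter.1 hT).2
        _ ≤ _ := by
            rw [mul_sum]
            exact sum_le_sum_of_subset_of_nonneg (filter_subset _ _) fun _ _ _ => by positivity
    have e2 : ((X.biUnion (fun x => van {x})).card : ℝ) ≤ Q * (X.card * (2 ^ s : ℝ)⁻¹) := by
      calc ((X.biUnion (fun x => van {x})).card : ℝ) ≤ ∑ x ∈ X, ((van {x}).card : ℝ) := by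
            exact_mod_cast card_biUnion_le
        _ = ∑ x ∈ X, Q * (2 ^ s : ℝ)⁻¹ := by
            refine sum_congr rfl fun x hx => ?_
            rw [hvan, card_singleton, pow_one]
            have hx0 : x ≠ 0 := fun e => hX (e ▸ hx)
            rw [coe_singleton]
            exact (linearIndepOn_singleton_iff (ZMod 2) (v := id) (i := x)).2 hx0
        _ = _ := by rw [sum_const, nsmul_eq_mul]; ring
    have e3 : ((P'.biUnion van ∪ X.biUnion (fun x => van {x})).card : ℝ) ≤
        (P'.biUnion van).card + (X.biUnion (fun x => van {x})).card := by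
      exact_mod_cast card_union_le _ _
    nlinarith
  obtain ⟨φ, -, hφ⟩ := exists_mem_notMem_of_card_lt_card (t := univ)
    (s := P'.biUnion van ∪ X.biUnion (fun x => van {x})) (by exact_mod_cast hbad)
  simp only [mem_union, mem_biUnion, not_or, not_exists, not_and] at hφ
  set L := S.filter (fun x => φ x = 0) with hL
  obtain ⟨B, hBL, hsp, hB⟩ := exists_linearIndependent (ZMod 2) (L : Set V)
  obtain ⟨f, hf⟩ := exists_map_of_indep hB (fun _ => (1 : ZMod 2))
  refine ⟨LinearMap.ker (φ.prod f), fun y hy => ?_, ?_⟩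
  · rw [LinearMap.mem_ker, LinearMap.prod_apply, Prod.mk_eq_zero] at hy
    obtain ⟨hy1, hy2⟩ : φ y = 0 ∧ f y = 0 := hy
    refine ⟨fun hyS => ?_, fun hyX => hφ.2 y hyX (by simp [van, hy1])⟩
    have hyL : y ∈ L := mem_filter.2 ⟨hyS, hy1⟩
    have hfin : B.Finite := Set.toFinite _
    have hy3 : y ∈ Submodule.span (ZMod 2) (hfin.toFinset : Set V) := by
      rw [hfin.coe_toFinset, hsp]
      exact Submodule.subset_span hyL
    obtain ⟨T, hT, hsum⟩ := exists_subset_sum hy3
    have hTB : ∀ x ∈ T, x ∈ B := fun x hx => hfin.mem_toFinset.1 (hT hx)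
    have hTL : ∀ x ∈ T, x ∈ L := fun x hx => hBL (hTB x hx)
    refine hφ.1 T (mem_filter.2 ⟨mem_filter.2 ⟨mem_powerset.2 fun x hx =>
      (mem_filter.1 (hTL x hx)).1, ?_, hsum ▸ hyS⟩, ?_⟩) ?_
    · by_contra hc
      have : T.card = 0 ∨ T.card = 1 := by omega
      rcases this with h0 | h1
      · rw [card_eq_zero] at h0
        rw [h0, sum_empty] at hsum
        exact hS (hsum ▸ hyS)
      · obtain ⟨b, rfl⟩ := card_eq_one.1 h1
        rw [sum_singleton] at hsum
        have := hf ⟨b, hTB b (mem_singleton_self b)⟩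
        rw [← hsum] at hy2
        simp only [hy2] at this
        exact zero_ne_one this
    · exact LinearIndepOn.mono (v := id) hB (fun x hx => hTB x hx)
    · simp only [van, mem_filter, mem_univ, true_and]
      exact fun x hx => (mem_filter.1 (hTL x hx)).2
  · have h1 := card_ker_ge (φ.prod f).toAddMonoidHom
    rw [Fintype.card_prod, hW, ZMod.card, ← pow_succ, mul_comm] at h1
    refine h1.trans (le_of_eq ?_)
    congr 2
    ext x
    simp [LinearMap.mem_ker]

end Pool.Agent.Lib.MP_fd8555_co
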