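import Pool.Agent.Lib.MP_fd8555_co.Main
import Pool.Agent.Lib.MP_fd8555_co.LinAlt
import Pool.Agent.Lib.MP_fd8555_co.Bip
import Pool.Agent.Lib.MP_fd8555_co.EKR3

/-!
Large linear triangle graph codes.
-/

set_option autoImplicit false

namespace Pool.Agent.Lib.MP_fd8555_co

open Finset Classical Filter Topology
open scoped symmDiff

variable {n : ℕ}

theorem gr_add (x y : Ed n → ZMod 2) : gr x ∆ gr y = gr (x + y) := by
  have key : ∀ i j : Fin n, i < j → ((gr x ∆ gr y).Adj i j ↔ (gr (x + y)).Adj i j) := by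
    intro i j h
    simp only [symmDiff, SimpleGraph.sup_adj, SimpleGraph.sdiff_adj, gr_adj _ h, Pi.add_apply]
    generalize x ⟨(i, j), h⟩ = a
    generalize y ⟨(i, j), h⟩ = b
    revert a b
    decide
  ext i j
  rcases lt_trichotomy i j with h | rfl | h
  · exact key i j h
  · simp
  · rw [SimpleGraph.adj_comm, key j i h, SimpleGraph.adj_comm]

/-- nonbipartite triangle-free vectors. -/
noncomputable def XX (n : ℕ) : Finset (Ed n → ZMod 2) :=
  univ.filter (fun x => (gr x).CliqueFree 3 ∧ ¬ (gr x).Colorable 2)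

theorem card_XX : (XX n).card ≤ (NB (univ : Finset (Fin n))).card := by
  refine card_le_card_of_injOn gr (fun x hx => ?_) gr_inj.injOn
  obtain ⟨-, h1, h2⟩ := mem_filter.1 hx
  exact mem_filter.2 ⟨mem_TF.2 ⟨h1, fun _ _ _ => mem_univ _⟩, h2⟩

theorem zero_XX : (0 : Ed n → ZMod 2) ∉ XX n := by
  intro h
  refine (mem_filter.1 h).2.2 ⟨SimpleGraph.Coloring.mk (fun _ => 0) fun {i j} e => ?_⟩
  simp [gr] at e

theorem exp_le (k : ℕ) : Real.exp ((k : ℝ) / 16) ≤ 2 ^ (3 * (k / 32) + 3) := by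
  have h1 : (k : ℝ) / 16 ≤ ((k / 32 + 1 : ℕ) : ℝ) * 2 := by
    have : (k : ℝ) ≤ ((32 * (k / 32 + 1) : ℕ) : ℝ) := by exact_mod_cast (by omega)
    push_cast at this ⊢
    linarith
  refine (Real.exp_le_exp.2 h1).trans ?_
  rw [Real.exp_nat_mul, show 3 * (k / 32) + 3 = 3 * (k / 32 + 1) by ring, pow_mul]
  gcongr
  have := Real.exp_one_lt_d9
  have h2 : Real.exp 2 = Real.exp 1 * Real.exp 1 := by rw [← Real.exp_add]; norm_num
  have := Real.exp_pos 1
  nlinarith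

theorem two_choose (n : ℕ) : 2 * n.choose 2 + n = n ^ 2 := by
  induction n with
  | zero => simp
  | succ k ih =>
    rw [Nat.choose_succ_succ, Nat.choose_one_right]
    change 2 * (k + k.choose 2) + (k + 1) = _
    nlinarith

theorem lin_vec : ∃ n0 : ℕ, ∀ n ≥ n0, ∃ C : Submodule (ZMod 2) (Ed n → ZMod 2),
    (∀ x ∈ C, x ∉ bip n ∧ x ∉ XX n) ∧
      n ^ 2 * 2 ^ (n.choose 2 - mx n) ≤
        128 * n.choose (n / 2) * (univ.filter (fun x => x ∈ C)).card := by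
  obtain ⟨M, hM, hekr⟩ := ekr
  have t1 := (poly_th 407).const_mul M
  rw [mul_zero] at t1
  have q : (0 : ℝ) < 1 / 4 := by norm_num
  obtain ⟨n0, hn0⟩ := eventually_atTop.1 ((t1.eventually (gt_mem_nhds q)).and
    (((poly_th 14).eventually (gt_mem_nhds q)).and (eventually_ge_atTop 200)))
  refine ⟨n0, fun n hn => ?_⟩
  obtain ⟨a1, a2, hn2⟩ := hn0 n hn
  set C := n.choose (n / 2) with hC
  have hC0 : 0 < C := Nat.choose_pos (by omega)
  have hmid : 2 ^ n ≤ (n + 1) * C := middle n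
  have hex : ∃ s, 32 * C * 2 ^ mx n ≤ 2 ^ s * n ^ 2 :=
    ⟨32 * C * 2 ^ mx n, Nat.lt_two_pow_self.le.trans (Nat.le_mul_of_pos_right _ (by positivity))⟩
  set s := Nat.find hex with hs
  have s1 : 32 * C * 2 ^ mx n ≤ 2 ^ s * n ^ 2 := Nat.find_spec hex
  have m0 := mx_eq n
  have hN : 2 * n.choose 2 + n = n ^ 2 := two_choose n
  have hnn : 200 * n ≤ n ^ 2 := by nlinarith
  have s2 : 2 ^ s * n ^ 2 ≤ 64 * C * 2 ^ mx n := by
    rcases Nat.eq_zero_or_pos s with h0 | h0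
    · have h1 : mx n < 2 ^ mx n := Nat.lt_two_pow_self
      rw [h0]
      have h2 : 64 * 2 ^ mx n ≤ 64 * C * 2 ^ mx n := by
        rw [mul_assoc]
        exact Nat.mul_le_mul_left _ (Nat.le_mul_of_pos_left _ hC0)
      omega
    · have := Nat.find_min hex (m := s - 1) (by omega)
      rw [show s = s - 1 + 1 by omega, pow_succ]
      nlinarith
  set t : ℝ := (2 ^ s : ℝ)⁻¹ with ht
  have ht0 : 0 < t := by positivity
  have ht1 : t ≤ 1 := inv_le_one_of_one_le₀ (one_le_pow₀ one_le_two)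
  have hn1 : (200 : ℝ) ≤ n := by exact_mod_cast hn2
  have hC1 : (0 : ℝ) < C := by exact_mod_cast hC0
  have r1 : t * (32 * C * 2 ^ mx n) ≤ n ^ 2 := by
    rw [ht, inv_mul_le_iff₀ (by positivity)]
    exact_mod_cast s1
  have r2 : (2 : ℝ) ^ n ≤ 2 * n * C := by
    have : (2 : ℝ) ^ n ≤ (n + 1) * C := by exact_mod_cast hmid
    nlinarith
  have r3 : t * (2 ^ n * 2 ^ mx n) ≤ n ^ 3 / 16 := by
    calc t * (2 ^ n * 2 ^ mx n) ≤ t * (2 * n * C * 2 ^ mx n) := by gcongr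
      _ = n / 16 * (t * (32 * C * 2 ^ mx n)) := by ring
      _ ≤ n / 16 * n ^ 2 := by gcongr
      _ = _ := by ring
  have hth := th_pos n
  have hp : ∀ k, k ≤ 14 → (n : ℝ) ^ k * th n < 1 / 4 := fun k hk =>
    lt_of_le_of_lt (by gcongr; linarith) a2
  have hb := bip_bound (n := n) (by omega) (n / 16) (b := ((n ^ 2 : ℕ) : ℝ) / 16) ht0.le ht1
    (by rw [← hC]; push_cast; linarith)
    (by
      have e : (2 : ℝ) ^ (n - n / 16) = 2 ^ n * (1 / 2) ^ (n / 16) := by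
        rw [pow_sub₀ _ two_ne_zero (by omega), one_div, inv_pow]
      have e2 := half_le_th (j := n / 16) (k := n) (by omega)
      have e3 := hp 3 (by norm_num)
      calc t * (2 ^ (n - n / 16) * 2 ^ mx n) = t * (2 ^ n * 2 ^ mx n) * (1 / 2) ^ (n / 16) := by
            rw [e]; ring
        _ ≤ n ^ 3 / 16 * th n := by gcongr
        _ ≤ 1 := by linarith)
  have b1 : (2 : ℝ) ^ n * ((2 ^ (n.choose 2 - mx n))⁻¹ * (2 ^ n * 2 ^ (n / 16 * n) *
      Real.exp (((n ^ 2 : ℕ) : ℝ) / 16))) ≤ 1 / 4 := by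
    have e1 := exp_le (n ^ 2)
    have e2 : 16 * (n / 16 * n) ≤ n ^ 2 := by
      rw [← mul_assoc, sq]; exact Nat.mul_le_mul_right _ (by omega)
    have e3 : (2 : ℝ) ^ (n + (n + n / 16 * n + (3 * (n ^ 2 / 32) + 3)) + 2) ≤
        2 ^ (n.choose 2 - mx n) := pow_le_pow_right₀ one_le_two (by omega)
    rw [mul_left_comm, inv_mul_le_iff₀ (by positivity)]
    rw [pow_add, pow_add, pow_add, pow_add] at e3
    calc (2 : ℝ) ^ n * (2 ^ n * 2 ^ (n / 16 * n) * Real.exp (((n ^ 2 : ℕ) : ℝ) / 16))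
        ≤ 2 ^ n * (2 ^ n * 2 ^ (n / 16 * n) * 2 ^ (3 * (n ^ 2 / 32) + 3)) := by gcongr
      _ ≤ _ := by linarith
  have b2 : t ^ 2 * (2 ^ n * ((100 * n ^ 8 + 1) * 4 ^ mx n)) ≤ 1 / 4 := by
    have e1 : (1 : ℝ) ≤ n ^ 8 := one_le_pow₀ (by linarith)
    have e2 := half_le_th (j := n) (k := n) (by omega)
    have e3 := hp 14 le_rfl
    have e4 : (4 : ℝ) ^ mx n = 2 ^ mx n * 2 ^ mx n := by rw [← mul_pow]; norm_num
    have e5 : (2 : ℝ) ^ n * (1 / 2) ^ n = 1 := by rw [← mul_pow]; norm_num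
    calc t ^ 2 * (2 ^ n * ((100 * n ^ 8 + 1) * 4 ^ mx n))
        = (t * (2 ^ n * 2 ^ mx n)) ^ 2 * (100 * n ^ 8 + 1) * (1 / 2) ^ n := by
          rw [e4]
          linear_combination (-t ^ 2 * 2 ^ n * (100 * n ^ 8 + 1) * (2 ^ mx n * 2 ^ mx n)) * e5
      _ ≤ (n ^ 3 / 16) ^ 2 * (101 * n ^ 8) * th n := by gcongr; linarith
      _ = 101 / 256 * (n ^ 14 * th n) := by ring
      _ ≤ _ := by linarith
  have b3 : (XX n).card * t ≤ 1 / 4 := by
    have e1 := hekr (Fin n) univ (by simpa using hn2)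
    rw [card_univ, Fintype.card_fin] at e1
    have e2 : ((XX n).card : ℝ) ≤ (NB (univ : Finset (Fin n))).card := by exact_mod_cast card_XX
    have e3 : (0 : ℝ) ≤ M * (n ^ 407 * th n) := by positivity
    calc (XX n).card * t ≤ gg n * (M * n ^ 404 * th n) * t := by gcongr; exact e2.trans e1
      _ = t * (2 ^ n * 2 ^ mx n) * (M * n ^ 404 * th n) := by rw [gg]; ring
      _ ≤ n ^ 3 / 16 * (M * n ^ 404 * th n) := by gcongr
      _ = 1 / 16 * (M * (n ^ 407 * th n)) := by ring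
      _ ≤ _ := by linarith
  obtain ⟨W, hW, hc⟩ := lin_alt (bip n) (XX n) (by simp [bip]) zero_XX s (by
    have : ∑ T ∈ (bip n).powerset.filter (fun T => 2 ≤ T.card ∧ ∑ x ∈ T, x ∈ bip n), t ^ T.card
      ≤ 1 / 2 := by linarith
    refine lt_of_le_of_lt (add_le_add (le_of_eq_of_le ?_ this) b3) (by norm_num)
    congr)
  refine ⟨W, hW, ?_⟩
  rw [Fintype.card_fun, ZMod.card, card_Ed,
    show n.choose 2 = n.choose 2 - mx n + mx n by omega, pow_add, pow_succ] at hc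
  refine Nat.le_of_mul_le_mul_right ?_ (show 0 < 2 ^ mx n by positivity)
  calc n ^ 2 * 2 ^ (n.choose 2 - mx n) * 2 ^ mx n
      = n ^ 2 * (2 ^ (n.choose 2 - mx n) * 2 ^ mx n) := by ring
    _ ≤ n ^ 2 * (2 ^ s * 2 * (univ.filter (fun x => x ∈ W)).card) := Nat.mul_le_mul_left _ hc
    _ = 2 ^ s * n ^ 2 * (2 * (univ.filter (fun x => x ∈ W)).card) := by ring
    _ ≤ 64 * C * 2 ^ mx n * (2 * (univ.filter (fun x => x ∈ W)).card) :=
        Nat.mul_le_mul_right _ s2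
    _ = _ := by ring

theorem lin_code : ∃ n0 : ℕ, ∀ n ≥ n0, ∃ F : Finset (SimpleGraph (Fin n)),
    (∀ G ∈ F, ∀ H ∈ F, G ∆ H ∈ F) ∧
    (∀ G ∈ F, ∀ H ∈ F, G ≠ H → ¬ (G ∆ H).CliqueFree 3) ∧
      n ^ 2 * 2 ^ (n.choose 2 - (n + 1) / 2 * (n / 2)) ≤ 128 * n.choose (n / 2) * F.card := by
  obtain ⟨n0, h⟩ := lin_vec
  refine ⟨n0, fun n hn => ?_⟩
  obtain ⟨W, hW, hc⟩ := h n hn
  refine ⟨(univ.filter (fun x => x ∈ W)).map ⟨gr, gr_inj⟩, fun G hG H hH => ?_,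
    fun G hG H hH hne hb => ?_, by rwa [card_map]⟩
  · obtain ⟨x, hx, rfl⟩ := mem_map.1 hG
    obtain ⟨y, hy, rfl⟩ := mem_map.1 hH
    exact mem_map.2 ⟨x + y, mem_filter.2 ⟨mem_univ _,
      W.add_mem (mem_filter.1 hx).2 (mem_filter.1 hy).2⟩, (gr_add x y).symm⟩
  · obtain ⟨x, hx, rfl⟩ := mem_map.1 hG
    obtain ⟨y, hy, rfl⟩ := mem_map.1 hH
    obtain ⟨h1, h2⟩ := hW _ (W.add_mem (mem_filter.1 hx).2 (mem_filter.1 hy).2)
    change (gr x ∆ gr y).CliqueFree 3 at hb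
    by_cases hcol : (gr x ∆ gr y).Colorable 2
    · exact h1 (mem_bip (fun h => hne (by rw [h])) hcol)
    · rw [gr_add] at hb hcol
      exact h2 (mem_filter.2 ⟨mem_univ _, hb, hcol⟩)

end Pool.Agent.Lib.MP_fd8555_co
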