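import Pool.Agent.Lib.MP_fd8555_co.Count

/-!
Large odd-cycle graph codes.
-/

set_option autoImplicit false

namespace Pool.Agent.Lib.MP_fd8555_co

open Finset
open scoped symmDiff

variable {n : ℕ}

theorem pow8 (m : ℕ) (hm : 70 ≤ m) : 404 * (2 * m + 1) ^ 8 ≤ 2 ^ m := by
  induction m, hm using Nat.le_induction with
  | base => norm_num
  | succ m hm ih =>
    have h1 : (141 * (2 * (m + 1) + 1)) ^ 8 ≤ (143 * (2 * m + 1)) ^ 8 :=
      Nat.pow_le_pow_left (by omega) 8
    rw [mul_pow, mul_pow] at h1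
    rw [pow_succ 2]
    norm_num at h1
    omega

theorem lin8 (m : ℕ) (hm : 6 ≤ m) : 8 * m + 8 ≤ 2 ^ m := by
  induction m, hm using Nat.le_induction with
  | base => norm_num
  | succ m hm ih => rw [pow_succ]; omega

theorem middle (n : ℕ) : 2 ^ n ≤ (n + 1) * n.choose (n / 2) := by
  rw [← Nat.sum_range_choose]
  simpa using sum_le_card_nsmul (range (n + 1)) _ _ (fun a _ => Nat.choose_le_middle a n)

theorem vec_code (hn : 140 ≤ n) : ∃ W : Finset (Ed n → ZMod 2),
    (∀ x ∈ W, ∀ y ∈ W, x + y ∉ bip n) ∧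
      n * 2 ^ (n.choose 2 - mx n) ≤ 512 * n.choose (n / 2) * W.card := by
  set C := n.choose (n / 2) with hC
  have hC0 : 0 < C := Nat.choose_pos (by omega)
  set u := Nat.clog 2 (4 * C) with hu
  have u1 : 4 * C ≤ 2 ^ u := Nat.le_pow_clog (by norm_num) _
  have u2 : 2 ^ u ≤ 8 * C := by
    have := Nat.pow_pred_clog_lt_self (b := 2) (by norm_num) (x := 4 * C) (by omega)
    have h0 : 0 < u := Nat.clog_pos (by norm_num) (by omega)
    rw [← hu, Nat.pred_eq_sub_one] at this
    rw [show u = u - 1 + 1 by omega, pow_succ]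
    omega
  have u3 : n + 2 ≤ u + n / 8 := by
    have h1 := lin8 (n / 8) (by omega)
    have h2 := middle n
    refine (Nat.pow_le_pow_iff_right (a := 2) (by norm_num)).1 ?_
    rw [pow_add, pow_add]
    nlinarith [Nat.mul_le_mul u1 (show n + 1 ≤ 2 ^ (n / 8) by omega)]
  obtain ⟨t, ht⟩ : ∃ t, u = t + (3 * n + 3) / 4 := ⟨u - (3 * n + 3) / 4, by omega⟩
  obtain ⟨W, hW, hc⟩ := cayley (bip n) (by simp [bip]) (mx n + (3 * n + 3) / 4) t
    (by
      have := card_bip (n := n)
      rw [← pow_add, show t + (mx n + (3 * n + 3) / 4) = u + mx n by omega, pow_add]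
      nlinarith [Nat.mul_le_mul_right (2 ^ mx n) u1])
    (by
      have h1 := card_triples (n := n) (by omega)
      have h2 := pow8 (n / 2) (by omega)
      have h3 : n ^ 8 ≤ (2 * (n / 2) + 1) ^ 8 := Nat.pow_le_pow_left (by omega) 8
      have h4 : 1 ≤ n ^ 8 := Nat.one_le_pow _ _ (by omega)
      have h5 : 2 ^ n * 2 ^ (n / 2) ≤ 4 ^ ((3 * n + 3) / 4) := by
        rw [← pow_add, show 4 = 2 ^ 2 from rfl, ← pow_mul]
        exact Nat.pow_le_pow_right two_pos (by omega)
      have h6 : 4 * (100 * n ^ 8 + 1) ≤ 2 ^ (n / 2) := by omega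
      rw [pow_add]
      nlinarith [Nat.mul_le_mul_right (4 ^ mx n) ((Nat.mul_le_mul_left (2 ^ n) h6).trans h5)])
  refine ⟨W, hW, ?_⟩
  have hm : mx n ≤ n.choose 2 := by
    rw [Nat.choose_two_right, mx, Nat.le_div_iff_mul_le two_pos]
    rw [mul_assoc, mul_comm n]
    exact Nat.mul_le_mul (by omega) (by omega)
  rw [card_Ed, mul_assoc 8, ← pow_add, show t + (mx n + (3 * n + 3) / 4) = u + mx n by omega,
    show n.choose 2 = n.choose 2 - mx n + mx n by omega, pow_add, pow_add] at hc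
  refine Nat.le_of_mul_le_mul_right ?_ (show 0 < 2 ^ mx n by positivity)
  have h8 : n ≤ 8 * t := by omega
  nlinarith [Nat.mul_le_mul_right (2 ^ (n.choose 2 - mx n) * 2 ^ mx n) h8,
    Nat.mul_le_mul_right (2 ^ mx n * W.card) u2]

/-- the graph with a given indicator vector. -/
def gr (x : Ed n → ZMod 2) : SimpleGraph (Fin n) :=
  SimpleGraph.fromRel (fun i j => ∃ h : i < j, x ⟨(i, j), h⟩ ≠ 0)

theorem gr_adj (x : Ed n → ZMod 2) {i j : Fin n} (h : i < j) :
    (gr x).Adj i j ↔ x ⟨(i, j), h⟩ ≠ 0 := by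
  simp [gr, h, h.ne, lt_asymm h]

theorem gr_inj : Function.Injective (gr (n := n)) := by
  intro x y h
  funext e
  have := (gr_adj x e.2).symm.trans (h ▸ gr_adj y e.2)
  change x e ≠ 0 ↔ y e ≠ 0 at this
  revert this
  generalize x e = a
  generalize y e = b
  revert a b
  decide

theorem mem_bip {x y : Ed n → ZMod 2} (hxy : x ≠ y) (h : (gr x ∆ gr y).IsBipartite) :
    x + y ∈ bip n := by
  obtain ⟨c⟩ := h
  simp only [bip, mem_erase, mem_biUnion, mem_univ, true_and]
  refine ⟨fun h => hxy ?_, univ.filter (fun i => c i = 0), ?_⟩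
  · funext e
    exact CharTwo.add_eq_zero.1 (congrFun h e)
  · simp only [sup, cut, mem_filter, mem_univ, true_and, not_not]
    intro e he
    by_contra h
    have h1 : (gr x ∆ gr y).Adj e.1.1 e.1.2 := by
      simp only [symmDiff, SimpleGraph.sup_adj, SimpleGraph.sdiff_adj, gr_adj _ e.2]
      change x e ≠ 0 ∧ ¬ y e ≠ 0 ∨ y e ≠ 0 ∧ ¬ x e ≠ 0
      change ¬ x e + y e = 0 at h
      revert h
      generalize x e = a
      generalize y e = b
      revert a b
      decide
    have h2 := c.valid h1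
    revert he h2
    generalize c e.1.1 = a
    generalize c e.1.2 = b
    revert a b
    decide

theorem graph_code (hn : 140 ≤ n) : ∃ F : Finset (SimpleGraph (Fin n)),
    (∀ G ∈ F, ∀ H ∈ F, G ≠ H → ¬ (G ∆ H).IsBipartite) ∧
      n * 2 ^ (n.choose 2 - (n + 1) / 2 * (n / 2)) ≤ 512 * n.choose (n / 2) * F.card := by
  obtain ⟨W, hW, hc⟩ := vec_code hn
  refine ⟨W.map ⟨gr, gr_inj⟩, fun G hG H hH hne hb => ?_, by rwa [card_map]⟩
  obtain ⟨x, hx, rfl⟩ := mem_map.1 hG
  obtain ⟨y, hy, rfl⟩ := mem_map.1 hH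
  exact hW x hx y hy (mem_bip (fun h => hne (by rw [h])) hb)

end Pool.Agent.Lib.MP_fd8555_co
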